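import Pool.Agent.Helper66.SG4.Defs
import Pool.Agent.Helper66.SG.Process
import Pool.Agent.Helper66.SG.Greedy

/-!
# M7: the order of the colouring, the number of conflicts, the class is an induced matching
-/

set_option autoImplicit false

namespace Pool.Agent.SG4

open Finset Pool.Agent.SEC Pool.Agent.SG
open scoped Classical

section used
variable {V : Type} [Fintype V] (adj : V → V → Prop) {K N : ℕ} (l : V → Fin K → Fin N)
  (U : Finset (Sym2 V)) (idx : V → ℕ) (Q : ℕ)

theorem mem_used4 {z y : V} : (z, y) ∈ used4 adj l U idx Q ↔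
    s(z, y) ∈ U ∧ ∃ k < K, arc adj l k z y ∧
    (hd adj l k z ∩ U).card + psn adj l U idx z y + (hd adj l k y ∩ U).card < Q := by
  simp only [used4, mem_filter, mem_univ, true_and]

theorem mem_used4' {a : V × V} : a ∈ used4 adj l U idx Q ↔ s(a.1, a.2) ∈ U ∧ ∃ k < K,
    arc adj l k a.1 a.2 ∧
    (hd adj l k a.1 ∩ U).card + psn adj l U idx a.1 a.2 + (hd adj l k a.2 ∩ U).card < Q := by
  simp only [used4, mem_filter, mem_univ, true_and]

end used

namespace Back

variable {V : Type} [Fintype V] (adj : V → V → Prop) (hsym : ∀ x y, adj x y → adj y x)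
  (idx : V → ℕ) (U : Finset (Sym2 V)) (Q : ℕ)

include hsym

theorem conf_symm {e e' : Sym2 V} (h : Conf adj e e') : Conf adj e' e := by
  obtain ⟨u, hu, v, hv, h⟩ := h
  exact ⟨v, hv, u, hu, h.elim (fun h => Or.inl h.symm) (fun h => Or.inr (hsym _ _ h))⟩

theorem mem_back_lt {K N : ℕ} (l : V → Fin K → Fin N) {z y z' y' : V}
    (h : (z, y) ∈ used4 adj l U idx Q) (h' : (z', y') ∈ used4 adj l U idx Q)
    (hdl : dl adj l y < dl adj l y') (hadj : adj z' y ∨ adj y' y) :
    y ∈ back4 adj l U idx Q y' := by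
  unfold back4
  rw [mem_filter]
  exact ⟨mem_univ _, z', z, h', h, Or.inl ⟨hdl, hadj⟩⟩

end Back

section cls
variable {V : Type} [Fintype V] (adj : V → V → Prop) (hsym : ∀ x y, adj x y → adj y x)
  (hirr : ∀ x, ¬ adj x x) (idx : V → ℕ) (hidx : Function.Injective idx)
  (hidc : ∀ v, idx v < Fintype.card V)
  (U : Finset (Sym2 V)) (Q g : ℕ) (hg : 0 < g)

include hsym hirr hidx hidc

/-- M7a: the order of the colouring -/
theorem back4_ord {K N : ℕ} (l : V → Fin K → Fin N) (y y' : V)
    (h : y' ∈ back4 adj l U idx Q y) : ord adj l idx y' < ord adj l idx y := by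
  unfold back4 at h
  rw [mem_filter] at h
  obtain ⟨_, z, z', hz, hz', h⟩ := h
  unfold ord
  rcases h with ⟨h, _⟩ | ⟨h, h'⟩
  · have h1 := hidc y'
    have h2 : (dl adj l y' + 1) * Fintype.card V ≤ dl adj l y * Fintype.card V :=
      Nat.mul_le_mul_right _ h
    rw [add_mul, one_mul] at h2
    omega
  · subst h
    rw [mem_used4] at hz hz'
    obtain ⟨_, k, hk, h1, _⟩ := hz
    obtain ⟨_, k', hk', h1', _⟩ := hz'
    rw [dl_head adj l hsym hk h1, dl_head adj l hsym hk' h1', arc_same adj l hsym h1 h1']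
    omega

/-- M7b: the number of conflicts -/
theorem card_back4 {K N : ℕ} (l : V → Fin K → Fin N) (y : V) :
    (back4 adj l U idx Q y).card ≤ Q := by
  by_cases hy : ∃ z, (z, y) ∈ used4 adj l U idx Q
  · obtain ⟨z, hz⟩ := hy
    obtain ⟨hzU, k, hk, harc, hQ⟩ := (mem_used4 adj l U idx Q).1 hz
    have hsub : back4 adj l U idx Q y ⊆
        ((univ.filter (fun w => adj z w ∧ ∃ z', ∃ k' < k, arc adj l k' z' w ∧ s(z', w) ∈ U)) ∪
        (univ.filter (fun y' => s(z, y') ∈ U ∧ (∃ k < K, arc adj l k z y') ∧ idx y' < idx y))) ∪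
        (univ.filter (fun w => adj y w ∧ ∃ z', ∃ k' < k, arc adj l k' z' w ∧ s(z', w) ∈ U)) := by
      intro y' hy'
      unfold back4 at hy'
      rw [mem_filter] at hy'
      obtain ⟨_, z1, z', hz1, hz', h⟩ := hy'
      obtain ⟨_, k1, hk1, harc1, _⟩ := (mem_used4 adj l U idx Q).1 hz1
      obtain ⟨hU', k', hk', harc', _⟩ := (mem_used4 adj l U idx Q).1 hz'
      have hz1z : z1 = z := arc_head_unique adj l hsym harc1 harc
      subst hz1z
      have hk1k : k1 = k := arc_same adj l hsym harc1 harc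
      rw [mem_union, mem_union, mem_filter, mem_filter, mem_filter]
      rcases h with ⟨h, h'⟩ | ⟨h, h'⟩
      · rw [dl_head adj l hsym hk' harc', dl_head adj l hsym hk harc] at h
        rcases h' with h' | h'
        · exact Or.inl (Or.inl ⟨mem_univ _, h', z', k', by omega, harc', hU'⟩)
        · exact Or.inr ⟨mem_univ _, h', z', k', by omega, harc', hU'⟩
      · subst h
        exact Or.inl (Or.inr ⟨mem_univ _, hU', ⟨k', hk', harc'⟩, h'⟩)
    refine (card_le_card hsub).trans ((card_union_le _ _).trans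
      ((Nat.add_le_add_right (card_union_le _ _) _).trans ?_))
    have h1 := card_heads_le adj l hsym U k z
    have h2 := card_heads_le adj l hsym U k y
    unfold psn at hQ
    omega
  · have : back4 adj l U idx Q y = ∅ := by
      unfold back4
      rw [filter_eq_empty_iff]
      rintro y' _ ⟨z, z', hz, _⟩
      exact hy ⟨z, hz⟩
    rw [this, card_empty]
    exact Nat.zero_le _

/-- M7c: the class is an induced matching -/
theorem cls4_ind {K N P : ℕ} (c₀ : Fin P) (hP : Q < P)
    (ω : V → (Fin K → Fin N) × Equiv.Perm (Fin P)) (e e' : Sym2 V)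
    (he : e ∈ cls4 adj U Q idx c₀ ω) (he' : e' ∈ cls4 adj U Q idx c₀ ω) (hne : e ≠ e') :
    ¬ Conf adj e e' := by
  unfold cls4 at he he'
  rw [mem_image] at he he'
  obtain ⟨⟨z, y⟩, ha, rfl⟩ := he
  obtain ⟨⟨z', y'⟩, ha', rfl⟩ := he'
  rw [mem_filter] at ha ha'
  obtain ⟨hz, hc, hs⟩ := ha
  obtain ⟨hz', hc', hs'⟩ := ha'
  dsimp only at hc hc' hs hs' hne ⊢
  obtain ⟨_, k, hk, harc, _⟩ := (mem_used4 adj _ U idx Q).1 hz
  obtain ⟨_, k', hk', harc', _⟩ := (mem_used4 adj _ U idx Q).1 hz'
  have hbk := back4_ord adj hsym hirr idx hidx hidc U Q (fun v => (ω v).1)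
  have key : ∀ w w', w' ∈ back4 adj (fun v => (ω v).1) U idx Q w →
      colr4 adj U Q idx (fun v => (ω v).1) (fun v => (ω v).2) w = some c₀ →
      colr4 adj U Q idx (fun v => (ω v).1) (fun v => (ω v).2) w' = some c₀ → False := by
    intro w w' h h1 h2
    exact gcol_ne _ _ hbk (fun v => (ω v).2) w w' h c₀ h1 h2
  by_cases hzz : z = z'
  · subst hzz
    exfalso
    have hyy : y ≠ y' := by
      rintro rfl
      exact hne rfl
    have hii : idx y ≠ idx y' := fun h => hyy (hidx h)
    rcases Nat.lt_or_gt_of_ne hii with h | h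
    · refine key y' y ?_ hc' hc
      unfold back4
      rw [mem_filter]
      exact ⟨mem_univ _, z, z, hz', hz, Or.inr ⟨rfl, h⟩⟩
    · refine key y y' ?_ hc hc'
      unfold back4
      rw [mem_filter]
      exact ⟨mem_univ _, z, z, hz, hz', Or.inr ⟨rfl, h⟩⟩
  · -- the ordered case
    have main : ∀ (z y z' y' : V) (k k' : ℕ), k < K → k' < K →
        arc adj (fun v => (ω v).1) k z y → arc adj (fun v => (ω v).1) k' z' y' →
        (z, y) ∈ used4 adj (fun v => (ω v).1) U idx Q →
        (z', y') ∈ used4 adj (fun v => (ω v).1) U idx Q →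
        colr4 adj U Q idx (fun v => (ω v).1) (fun v => (ω v).2) y = some c₀ →
        colr4 adj U Q idx (fun v => (ω v).1) (fun v => (ω v).2) y' = some c₀ →
        (∀ z' y', adj y y' → z' ≠ z → (z', y') ∈ used4 adj (fun v => (ω v).1) U idx Q →
          dl adj (fun v => (ω v).1) y' = dl adj (fun v => (ω v).1) y →
          colr4 adj U Q idx (fun v => (ω v).1) (fun v => (ω v).2) y' ≠ some c₀) →
        k ≤ k' → z ≠ z' → ¬ Conf adj s(z, y) s(z', y') := by
      intro z y z' y' k k' hk hk' harc harc' hz hz' hc hc' hs hkk hzz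
      obtain ⟨h1, h2, h3, h4, h5, h6⟩ := arc_arc adj _ hsym harc harc' hkk hzz
      have hdy := dl_head adj _ hsym hk harc
      have hdy' := dl_head adj _ hsym hk' harc'
      rintro ⟨u, hu, v, hv, h⟩
      rw [Sym2.mem_iff] at hu hv
      rcases hu with rfl | rfl <;> rcases hv with rfl | rfl
      · exact h.elim hzz h4
      · exact h.elim h1 h5
      · rcases h with h | h
        · exact h2 h
        · have hlt := h6 (hsym _ _ h)
          exact key y' _ (Back.mem_back_lt adj hsym idx U Q _ hz hz' (by omega)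
            (Or.inl (hsym _ _ h))) hc' hc
      · rcases h with h | h
        · exact h3 h
        · rcases Nat.lt_or_ge k k' with hlt | hge
          · exact key _ _ (Back.mem_back_lt adj hsym idx U Q _ hz hz' (by omega)
              (Or.inr (hsym _ _ h))) hc' hc
          · exact hs z' _ h (Ne.symm hzz) hz' (by omega) hc'
    rcases le_total k k' with hkk | hkk
    · exact main z y z' y' k k' hk hk' harc harc' hz hz' hc hc' hs hkk hzz
    · intro hconf
      exact main z' y' z y k' k hk' hk harc' harc hz' hz hc' hc hs' hkk (Ne.symm hzz)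
        (Back.conf_symm adj hsym hconf)

end cls

end Pool.Agent.SG4
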