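import Pool.Agent.Helper66.SG4.Back
import Pool.Agent.Helper66.SEC.One

set_option autoImplicit false

namespace Pool.Agent.SG4

open Finset Pool.Agent.SEC Pool.Agent.SG
open scoped Classical

/-! ### M8: coverage by the class -/

namespace ClsCov

variable {V : Type} [Fintype V]

theorem pr_exists_le {Ω ι : Type} [Fintype Ω] (s : Finset ι) (p : ι → Ω → Prop) :
    pr (fun ω => ∃ i ∈ s, p i ω) ≤ ∑ i ∈ s, pr (p i) := by
  induction s using Finset.induction_on with
  | empty =>
    rw [One.pr_zero (fun ω => by simp)]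
    simp
  | insert a s ha ih =>
    rw [sum_insert ha]
    refine le_trans (One.pr_mono (q := fun ω => p a ω ∨ ∃ i ∈ s, p i ω) ?_)
      ((One.pr_or_le _ _).trans (by gcongr))
    intro ω
    simp only [mem_insert, exists_eq_or_imp, imp_self]

/-- indicator -/
noncomputable def ind (P : Prop) : ℝ := if P then 1 else 0

theorem ind_pos {P : Prop} (h : P) : ind P = 1 := if_pos h

theorem ind_neg {P : Prop} (h : ¬ P) : ind P = 0 := if_neg h

theorem ind_nonneg (P : Prop) : 0 ≤ ind P := by
  by_cases h : P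
  · rw [ind_pos h]; norm_num
  · rw [ind_neg h]

theorem pr_eq_ind {Ω : Type} [Fintype Ω] (p : Ω → Prop) :
    pr p = (∑ ω, ind (p ω)) / Fintype.card Ω := One.pr_eq_sum p

theorem pr_le_inv {Ω : Type} [Fintype Ω] [Nonempty Ω] (p : Ω → Prop) (N : ℕ) (hN : 0 < N)
    (f : Ω × (Fin N × Fin N) → Ω)
    (hf : ∀ q q', p q.1 → p q'.1 → f q = f q' → q = q') : pr p ≤ 1 / (N : ℝ) ^ 2 := by
  have hN' : (0 : ℝ) < N := by exact_mod_cast hN
  have hc : (0 : ℝ) < Fintype.card Ω := by exact_mod_cast Fintype.card_pos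
  unfold pr
  rw [div_le_div_iff₀ hc (by positivity), one_mul]
  have key : ((univ.filter p) ×ˢ (univ : Finset (Fin N × Fin N))).card ≤
      (univ : Finset Ω).card := by
    refine Finset.card_le_card_of_injOn f (fun q _ => mem_coe.2 (mem_univ _)) ?_
    intro q hq q' hq' h
    rw [mem_coe, mem_product, mem_filter] at hq hq'
    exact hf q q' hq.1.2 hq'.1.2 h
  rw [card_product, card_univ, card_univ, Fintype.card_prod, Fintype.card_fin] at key
  have key' : (((univ.filter p).card * (N * N) : ℕ) : ℝ) ≤ (Fintype.card Ω : ℝ) := by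
    exact_mod_cast key
  push_cast at key'
  rw [sq]
  exact key'

/-- two different vertices ring at the same level -/
theorem pr_two {K N : ℕ} (hN : 0 < N) (k : Fin K) (z z' : V) (hz : z ≠ z') :
    pr (fun l : V → Fin K → Fin N => (l z k : ℕ) = 0 ∧ (l z' k : ℕ) = 0) ≤ 1 / (N : ℝ) ^ 2 := by
  have : Nonempty (Fin N) := ⟨⟨0, hN⟩⟩
  refine pr_le_inv _ N hN
      (fun q v j => if j = k then (if v = z then q.2.1 else if v = z' then q.2.2 else q.1 v j)
        else q.1 v j) ?_
  rintro ⟨l, a, b⟩ ⟨l', a', b'⟩ h1 h2 h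
  have ha : a = a' := by
    have := congrFun (congrFun h z) k
    simpa using this
  have hb : b = b' := by
    have := congrFun (congrFun h z') k
    simpa [hz.symm] using this
  have hl : l = l' := by
    funext v j
    by_cases hj : j = k
    · subst hj
      by_cases hv : v = z
      · subst hv
        exact Fin.ext (h1.1.trans h2.1.symm)
      · by_cases hv' : v = z'
        · subst hv'
          exact Fin.ext (h1.2.trans h2.2.symm)
        · have := congrFun (congrFun h v) j
          simpa [hv, hv'] using this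
    · have := congrFun (congrFun h v) j
      simpa [hj] using this
  rw [ha, hb, hl]

theorem pr_rings {K N : ℕ} (hN : 0 < N) (k : ℕ) (z z' : V) (hz : z ≠ z') :
    pr (fun l : V → Fin K → Fin N => rings l k z ∧ rings l k z') ≤ 1 / (N : ℝ) ^ 2 := by
  by_cases hk : k < K
  · refine le_trans (One.pr_mono ?_) (pr_two hN ⟨k, hk⟩ z z' hz)
    rintro l ⟨⟨_, h1⟩, ⟨_, h2⟩⟩
    exact ⟨h1, h2⟩
  · rw [One.pr_zero (fun l h => hk h.1.1)]
    positivity

/-- the heads of used arcs at the level of `y`, adjacent to `y`, with a tail different from `z` -/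
noncomputable def conf (adj : V → V → Prop) {K N : ℕ} (l : V → Fin K → Fin N)
    (U : Finset (Sym2 V)) (idx : V → ℕ) (Q : ℕ) (z y : V) : Finset V :=
  univ.filter (fun y' => adj y y' ∧ ∃ z', z' ≠ z ∧ (z', y') ∈ used4 adj l U idx Q ∧
    dl adj l y' = dl adj l y)

noncomputable def cnt (adj : V → V → Prop) {K N : ℕ} (l : V → Fin K → Fin N)
    (U : Finset (Sym2 V)) (idx : V → ℕ) (Q : ℕ) (z y : V) : ℝ :=
  if (z, y) ∈ used4 adj l U idx Q then ((conf adj l U idx Q z y).card : ℝ) else 0

theorem cnt_nonneg (adj : V → V → Prop) {K N : ℕ} (l : V → Fin K → Fin N)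
    (U : Finset (Sym2 V)) (idx : V → ℕ) (Q : ℕ) (z y : V) : 0 ≤ cnt adj l U idx Q z y := by
  unfold cnt
  split_ifs
  · positivity
  · exact le_refl _

theorem used_arc {adj : V → V → Prop} {K N : ℕ} {l : V → Fin K → Fin N}
    {U : Finset (Sym2 V)} {idx : V → ℕ} {Q : ℕ} {z y : V} (h : (z, y) ∈ used4 adj l U idx Q) :
    ∃ k < K, arc adj l k z y := by
  unfold used4 at h
  rw [mem_filter] at h
  obtain ⟨k, hk, ha, _⟩ := h.2.2
  exact ⟨k, hk, ha⟩

theorem cnt_le (adj : V → V → Prop) (hsym : ∀ x y, adj x y → adj y x) {K N : ℕ}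
    (l : V → Fin K → Fin N) (U : Finset (Sym2 V)) (idx : V → ℕ) (Q : ℕ) (z y : V) :
    cnt adj l U idx Q z y ≤ ∑ y' ∈ nb adj y, ∑ z' ∈ (nb adj y').filter (fun z' => z ≠ z'),
      ∑ k ∈ range K, ind (rings l k z ∧ rings l k z') := by
  have hin : ∀ y', 0 ≤ ∑ z' ∈ (nb adj y').filter (fun z' => z ≠ z'),
      ∑ k ∈ range K, ind (rings l k z ∧ rings l k z') := by
    intro y'
    exact sum_nonneg fun z' _ => sum_nonneg fun k _ => ind_nonneg _
  unfold cnt
  split_ifs with hu
  · obtain ⟨k, hk, ha⟩ := used_arc hu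
    have hsub : conf adj l U idx Q z y ⊆ nb adj y := by
      intro y' hy'
      unfold conf at hy'
      rw [mem_filter] at hy'
      unfold nb
      rw [mem_filter]
      exact ⟨mem_univ _, hy'.2.1⟩
    calc ((conf adj l U idx Q z y).card : ℝ) = ∑ y' ∈ conf adj l U idx Q z y, (1 : ℝ) := by simp
      _ ≤ ∑ y' ∈ conf adj l U idx Q z y, ∑ z' ∈ (nb adj y').filter (fun z' => z ≠ z'),
          ∑ k ∈ range K, ind (rings l k z ∧ rings l k z') := by
          refine sum_le_sum fun y' hy' => ?_
          unfold conf at hy'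
          rw [mem_filter] at hy'
          obtain ⟨_, _, z', hz', hu', hd⟩ := hy'
          obtain ⟨k', hk', ha'⟩ := used_arc hu'
          have e1 := dl_head adj l hsym hk ha
          have e2 := dl_head adj l hsym hk' ha'
          have e3 : k' = k := by rw [← e2, hd, e1]
          subst e3
          have hmem : z' ∈ (nb adj y').filter (fun z' => z ≠ z') := by
            rw [mem_filter]
            refine ⟨?_, hz'.symm⟩
            unfold nb
            rw [mem_filter]
            exact ⟨mem_univ _, hsym _ _ ha'.1⟩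
          have hr : rings l k' z ∧ rings l k' z' := ⟨ha.2.2.2.1, ha'.2.2.2.1⟩
          calc (1 : ℝ) = ind (rings l k' z ∧ rings l k' z') := by
                rw [ind_pos hr]
            _ ≤ ∑ k ∈ range K, ind (rings l k z ∧ rings l k z') :=
                single_le_sum (f := fun k => ind (rings l k z ∧ rings l k z'))
                  (fun k _ => ind_nonneg _) (mem_range.2 hk')
            _ ≤ _ :=
                single_le_sum (f := fun z' => ∑ k ∈ range K,
                  ind (rings l k z ∧ rings l k z'))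
                  (fun w _ => sum_nonneg fun k _ => ind_nonneg _) hmem
      _ ≤ _ := sum_le_sum_of_subset_of_nonneg hsub (fun y' _ _ => hin y')
  · exact sum_nonneg fun y' _ => hin y'

theorem avg_cnt (adj : V → V → Prop) (hsym : ∀ x y, adj x y → adj y x) (Δ K N : ℕ) (hN : 0 < N)
    (hdeg : ∀ v, (nb adj v).card ≤ Δ) (U : Finset (Sym2 V)) (idx : V → ℕ) (Q : ℕ) (z y : V) :
    (∑ l : V → Fin K → Fin N, cnt adj l U idx Q z y) / Fintype.card (V → Fin K → Fin N) ≤
      K * (Δ : ℝ) ^ 2 / (N : ℝ) ^ 2 := by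
  have h1 : (∑ l : V → Fin K → Fin N, cnt adj l U idx Q z y) / Fintype.card (V → Fin K → Fin N) ≤
      ∑ y' ∈ nb adj y, ∑ z' ∈ (nb adj y').filter (fun z' => z ≠ z'),
        ∑ k ∈ range K, pr (fun l : V → Fin K → Fin N => rings l k z ∧ rings l k z') := by
    have h2 : ∑ y' ∈ nb adj y, ∑ z' ∈ (nb adj y').filter (fun z' => z ≠ z'),
        ∑ k ∈ range K, pr (fun l : V → Fin K → Fin N => rings l k z ∧ rings l k z') =
        (∑ l : V → Fin K → Fin N, ∑ y' ∈ nb adj y,
          ∑ z' ∈ (nb adj y').filter (fun z' => z ≠ z'),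
          ∑ k ∈ range K, ind (rings l k z ∧ rings l k z')) /
          Fintype.card (V → Fin K → Fin N) := by
      simp only [pr_eq_ind, ← sum_div]
      congr 1
      symm
      rw [sum_comm]
      refine sum_congr rfl fun y' _ => ?_
      rw [sum_comm]
      refine sum_congr rfl fun z' _ => ?_
      rw [sum_comm]
    rw [h2]
    exact div_le_div_of_nonneg_right (sum_le_sum fun l _ => cnt_le adj hsym l U idx Q z y)
      (Nat.cast_nonneg _)
  refine h1.trans ?_
  have hN' : (0 : ℝ) < N := by exact_mod_cast hN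
  calc ∑ y' ∈ nb adj y, ∑ z' ∈ (nb adj y').filter (fun z' => z ≠ z'),
        ∑ k ∈ range K, pr (fun l : V → Fin K → Fin N => rings l k z ∧ rings l k z')
      ≤ ∑ y' ∈ nb adj y, (Δ : ℝ) * (K * (1 / (N : ℝ) ^ 2)) := by
        refine sum_le_sum fun y' _ => ?_
        calc ∑ z' ∈ (nb adj y').filter (fun z' => z ≠ z'),
            ∑ k ∈ range K, pr (fun l : V → Fin K → Fin N => rings l k z ∧ rings l k z')
            ≤ ∑ z' ∈ (nb adj y').filter (fun z' => z ≠ z'), (K : ℝ) * (1 / (N : ℝ) ^ 2) := by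
              refine sum_le_sum fun z' hz' => ?_
              have hne : z ≠ z' := (mem_filter.1 hz').2
              calc ∑ k ∈ range K, pr (fun l : V → Fin K → Fin N => rings l k z ∧ rings l k z')
                  ≤ ∑ k ∈ range K, 1 / (N : ℝ) ^ 2 :=
                    sum_le_sum fun k _ => pr_rings hN k z z' hne
                _ = (K : ℝ) * (1 / (N : ℝ) ^ 2) := by
                    rw [sum_const, card_range, nsmul_eq_mul]
          _ = (((nb adj y').filter (fun z' => z ≠ z')).card : ℝ) * (K * (1 / (N : ℝ) ^ 2)) := by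
              rw [sum_const, nsmul_eq_mul]
          _ ≤ (Δ : ℝ) * (K * (1 / (N : ℝ) ^ 2)) := by
              refine mul_le_mul_of_nonneg_right ?_ (by positivity)
              have := (card_filter_le (nb adj y') (fun z' => z ≠ z')).trans (hdeg y')
              exact_mod_cast this
    _ = ((nb adj y).card : ℝ) * ((Δ : ℝ) * (K * (1 / (N : ℝ) ^ 2))) := by
        rw [sum_const, nsmul_eq_mul]
    _ ≤ (Δ : ℝ) * ((Δ : ℝ) * (K * (1 / (N : ℝ) ^ 2))) := by
        refine mul_le_mul_of_nonneg_right ?_ (by positivity)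
        exact_mod_cast hdeg y
    _ = K * (Δ : ℝ) ^ 2 / (N : ℝ) ^ 2 := by ring

/-- the class for given levels -/
noncomputable def inCls (adj : V → V → Prop) {K N P : ℕ} (U : Finset (Sym2 V)) (Q : ℕ)
    (idx : V → ℕ) (c₀ : Fin P) (e : Sym2 V) (l : V → Fin K → Fin N)
    (π : V → Equiv.Perm (Fin P)) : Prop :=
  e ∈ ((used4 adj l U idx Q).filter (fun a =>
    colr4 adj U Q idx l π a.2 = some c₀ ∧
    ∀ z' y', adj a.2 y' → z' ≠ a.1 → (z', y') ∈ used4 adj l U idx Q →
      dl adj l y' = dl adj l a.2 →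
      colr4 adj U Q idx l π y' ≠ some c₀)).image
    (fun a => s(a.1, a.2))

section fixed

variable (adj : V → V → Prop) (hsym : ∀ x y, adj x y → adj y x)
  (hirr : ∀ x, ¬ adj x x) (idx : V → ℕ) (hidx : Function.Injective idx)
  (hidc : ∀ v, idx v < Fintype.card V)
  (U : Finset (Sym2 V)) (Q g : ℕ) (hg : 0 < g)

include hsym in
/-- the tail of a used arc is determined by its head -/
theorem tail_unique {K N : ℕ} (l : V → Fin K → Fin N) {z z' y : V}
    (h : (z, y) ∈ used4 adj l U idx Q) (h' : (z', y) ∈ used4 adj l U idx Q) : z = z' := by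
  by_contra hne
  obtain ⟨k, hk, ha⟩ := used_arc h
  obtain ⟨k', hk', ha'⟩ := used_arc h'
  rcases le_total k k' with hkk | hkk
  · exact (arc_arc adj l hsym ha ha' hkk hne).2.2.1 rfl
  · exact (arc_arc adj l hsym ha' ha hkk (Ne.symm hne)).2.2.1 rfl

include hsym in
theorem level_tail {K N : ℕ} (l : V → Fin K → Fin N) {z y y' : V}
    (h : (z, y) ∈ used4 adj l U idx Q) (h' : (z, y') ∈ used4 adj l U idx Q) :
    dl adj l y = dl adj l y' := by
  obtain ⟨k, hk, ha⟩ := used_arc h
  obtain ⟨k', hk', ha'⟩ := used_arc h'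
  rw [dl_head adj l hsym hk ha, dl_head adj l hsym hk' ha', arc_same adj l hsym ha ha']

include hsym hirr hidx hidc hg in
/-- the pairs of colours -/
theorem pair_bound {K N P : ℕ} (c₀ : Fin P) (hP : P = Q + g) (l : V → Fin K → Fin N)
    (z y y' : V) (hu : (z, y) ∈ used4 adj l U idx Q) (hy' : y' ∈ conf adj l U idx Q z y) :
    pr (fun π : V → Equiv.Perm (Fin P) => colr4 adj U Q idx l π y = some c₀ ∧
      colr4 adj U Q idx l π y' = some c₀) ≤ 1 / P * (1 / g) := by
  unfold conf at hy'
  rw [mem_filter] at hy'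
  obtain ⟨_, hadj, z', hz', hu', hd⟩ := hy'
  unfold colr4
  refine pr_gcol_pair (ord adj l idx) (back4 adj l U idx Q)
    (fun w w' hw => back4_ord adj hsym hirr idx hidx hidc U Q l w w' hw) g hg
    (fun w => ?_) y y' (fun w => dl adj l w < dl adj l y ∨ (z, w) ∈ used4 adj l U idx Q) ?_
    (Or.inr hu) ?_ c₀
  · have := card_back4 adj hsym hirr idx hidx hidc U Q l w
    omega
  · intro w hw w' hw'
    unfold back4 at hw'
    rw [mem_filter] at hw'
    obtain ⟨_, z1, z1', hu1, hu1', hcase⟩ := hw'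
    rcases hw with hw | hw
    · left
      rcases hcase with ⟨hlt, _⟩ | ⟨he, _⟩
      · omega
      · subst he
        rw [level_tail adj hsym idx U Q l hu1' hu1]
        exact hw
    · have hzz := tail_unique adj hsym idx U Q l hw hu1
      subst hzz
      rcases hcase with ⟨hlt, _⟩ | ⟨he, _⟩
      · left
        rw [level_tail adj hsym idx U Q l hu hu1]
        exact hlt
      · subst he
        exact Or.inr hu1'
  · rintro (h | h)
    · omega
    · exact hz' (tail_unique adj hsym idx U Q l hu' h)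

include hsym hirr hidx hidc hg in
/-- one orientation -/
theorem one_side {K N P : ℕ} (c₀ : Fin P) (hP : P = Q + g) (l : V → Fin K → Fin N)
    (z y : V) (hu : (z, y) ∈ used4 adj l U idx Q) :
    1 - ((conf adj l U idx Q z y).card : ℝ) / g ≤
      P * pr (inCls adj U Q idx c₀ s(z, y) l) := by
  have hP0 : 0 < P := by omega
  have hP' : (0 : ℝ) < P := by exact_mod_cast hP0
  have hg' : (0 : ℝ) < g := by exact_mod_cast hg
  have h1 : pr (fun π : V → Equiv.Perm (Fin P) => colr4 adj U Q idx l π y = some c₀) =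
      1 / P := by
    unfold colr4
    refine pr_gcol (ord adj l idx) (back4 adj l U idx Q)
      (fun w w' hw => back4_ord adj hsym hirr idx hidx hidc U Q l w w' hw)
      (fun w => ?_) y c₀
    have := card_back4 adj hsym hirr idx hidx hidc U Q l w
    omega
  have h2 : pr (fun π : V → Equiv.Perm (Fin P) => colr4 adj U Q idx l π y = some c₀) ≤
      pr (inCls adj U Q idx c₀ s(z, y) l) + ∑ y' ∈ conf adj l U idx Q z y,
        pr (fun π : V → Equiv.Perm (Fin P) => colr4 adj U Q idx l π y = some c₀ ∧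
          colr4 adj U Q idx l π y' = some c₀) := by
    refine le_trans (One.pr_mono (q := fun π => inCls adj U Q idx c₀ s(z, y) l π ∨
      ∃ y' ∈ conf adj l U idx Q z y, (colr4 adj U Q idx l π y = some c₀ ∧
          colr4 adj U Q idx l π y' = some c₀)) ?_)
      ((One.pr_or_le _ _).trans (add_le_add le_rfl (pr_exists_le _ _)))
    intro π hπ
    by_cases hc : ∃ y' ∈ conf adj l U idx Q z y, (colr4 adj U Q idx l π y = some c₀ ∧
          colr4 adj U Q idx l π y' = some c₀)
    · exact Or.inr hc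
    · left
      unfold inCls
      rw [mem_image]
      refine ⟨(z, y), ?_, rfl⟩
      rw [mem_filter]
      refine ⟨hu, hπ, ?_⟩
      intro z' y' ha hz' hu' hd hcol
      refine hc ⟨y', ?_, hπ, hcol⟩
      unfold conf
      rw [mem_filter]
      exact ⟨mem_univ _, ha, z', hz', hu', hd⟩
  have h3 : ∑ y' ∈ conf adj l U idx Q z y,
        pr (fun π : V → Equiv.Perm (Fin P) => colr4 adj U Q idx l π y = some c₀ ∧
          colr4 adj U Q idx l π y' = some c₀) ≤
      (conf adj l U idx Q z y).card * (1 / P * (1 / g)) := by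
    refine (sum_le_sum fun y' hy' =>
      pair_bound adj hsym hirr idx hidx hidc U Q g hg c₀ hP l z y y' hu hy').trans ?_
    rw [sum_const, nsmul_eq_mul]
  rw [h1] at h2
  have h4 : 1 / (P : ℝ) - (conf adj l U idx Q z y).card * (1 / P * (1 / g)) ≤
      pr (inCls adj U Q idx c₀ s(z, y) l) := by linarith
  calc 1 - ((conf adj l U idx Q z y).card : ℝ) / g
      = P * (1 / (P : ℝ) - (conf adj l U idx Q z y).card * (1 / P * (1 / g))) := by
        field_simp
    _ ≤ _ := mul_le_mul_of_nonneg_left h4 hP'.le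

include hsym hirr hidx hidc hg in
theorem both_sides {K N P : ℕ} (c₀ : Fin P) (hP : P = Q + g) (l : V → Fin K → Fin N)
    (x y : V) :
    ind ((x, y) ∈ used4 adj l U idx Q ∨ (y, x) ∈ used4 adj l U idx Q) -
      (cnt adj l U idx Q x y + cnt adj l U idx Q y x) / g ≤
      P * pr (inCls adj U Q idx c₀ s(x, y) l) := by
  have hg' : (0 : ℝ) < g := by exact_mod_cast hg
  have c1 := cnt_nonneg adj l U idx Q x y
  have c2 := cnt_nonneg adj l U idx Q y x
  by_cases h1 : (x, y) ∈ used4 adj l U idx Q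
  · rw [ind_pos (Or.inl h1)]
    have h2 := one_side adj hsym hirr idx hidx hidc U Q g hg c₀ hP l x y h1
    have h3 : cnt adj l U idx Q x y = ((conf adj l U idx Q x y).card : ℝ) := by
      unfold cnt; rw [if_pos h1]
    have h4 : ((conf adj l U idx Q x y).card : ℝ) / g ≤
        (cnt adj l U idx Q x y + cnt adj l U idx Q y x) / g :=
      div_le_div_of_nonneg_right (by rw [h3]; linarith) hg'.le
    linarith
  · by_cases h1' : (y, x) ∈ used4 adj l U idx Q
    · rw [ind_pos (Or.inr h1')]
      have h2 := one_side adj hsym hirr idx hidx hidc U Q g hg c₀ hP l y x h1'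
      rw [Sym2.eq_swap] at h2
      have h3 : cnt adj l U idx Q y x = ((conf adj l U idx Q y x).card : ℝ) := by
        unfold cnt; rw [if_pos h1']
      have h4 : ((conf adj l U idx Q y x).card : ℝ) / g ≤
          (cnt adj l U idx Q x y + cnt adj l U idx Q y x) / g :=
        div_le_div_of_nonneg_right (by rw [h3]; linarith) hg'.le
      linarith
    · rw [ind_neg (by tauto)]
      have h5 : 0 ≤ (cnt adj l U idx Q x y + cnt adj l U idx Q y x) / g := by positivity
      have h6 : 0 ≤ (P : ℝ) * pr (inCls adj U Q idx c₀ s(x, y) l) :=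
        mul_nonneg (Nat.cast_nonneg _) (One.pr_nonneg _)
      linarith

end fixed

end ClsCov

section cls
variable {V : Type} [Fintype V] (adj : V → V → Prop) (hsym : ∀ x y, adj x y → adj y x)
  (hirr : ∀ x, ¬ adj x x) (idx : V → ℕ) (hidx : Function.Injective idx)
  (hidc : ∀ v, idx v < Fintype.card V)
  (U : Finset (Sym2 V)) (Q g : ℕ) (hg : 0 < g)

include hsym hirr hidx hidc

include hg in
/-- M8: coverage -/
theorem cls4_cov (Δ K N P : ℕ) (hN : 0 < N) (c₀ : Fin P) (hP : P = Q + g)
    (hdeg : ∀ v, (nb adj v).card ≤ Δ) {x y : V} (hxy : adj x y) :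
    pr (fun l : V → Fin K → Fin N => (x, y) ∈ used4 adj l U idx Q ∨ (y, x) ∈ used4 adj l U idx Q) -
        2 * K * (Δ : ℝ) ^ 2 / ((N : ℝ) ^ 2 * g) ≤
      P * pr (fun ω : V → (Fin K → Fin N) × Equiv.Perm (Fin P) =>
        s(x, y) ∈ cls4 adj U Q idx c₀ ω) := by
  have hg' : (0 : ℝ) < g := by exact_mod_cast hg
  have hN' : (0 : ℝ) < N := by exact_mod_cast hN
  have : Nonempty (Fin N) := ⟨⟨0, hN⟩⟩
  have hc : (0 : ℝ) < Fintype.card (V → Fin K → Fin N) := by
    exact_mod_cast Fintype.card_pos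
  have h1 : pr (fun ω : V → (Fin K → Fin N) × Equiv.Perm (Fin P) =>
        s(x, y) ∈ cls4 adj U Q idx c₀ ω) =
      (∑ l : V → Fin K → Fin N, pr (ClsCov.inCls adj U Q idx c₀ s(x, y) l)) /
        Fintype.card (V → Fin K → Fin N) :=
    One.pr_split (X := V) (α := Fin K → Fin N) (β := Equiv.Perm (Fin P))
      (ClsCov.inCls adj U Q idx c₀ s(x, y))
  rw [h1, ClsCov.pr_eq_ind, ← mul_div_assoc, mul_sum]
  have h2 : ∑ l : V → Fin K → Fin N,
      (ClsCov.ind ((x, y) ∈ used4 adj l U idx Q ∨ (y, x) ∈ used4 adj l U idx Q) -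
      (ClsCov.cnt adj l U idx Q x y + ClsCov.cnt adj l U idx Q y x) / g) ≤
      ∑ l : V → Fin K → Fin N, P * pr (ClsCov.inCls adj U Q idx c₀ s(x, y) l) :=
    sum_le_sum fun l _ =>
      ClsCov.both_sides adj hsym hirr idx hidx hidc U Q g hg c₀ hP l x y
  have h3 := div_le_div_of_nonneg_right h2 hc.le
  refine le_trans ?_ h3
  rw [sum_sub_distrib, sub_div, ← sum_div, sum_add_distrib]
  have h4 := ClsCov.avg_cnt adj hsym Δ K N hN hdeg U idx Q x y
  have h5 := ClsCov.avg_cnt adj hsym Δ K N hN hdeg U idx Q y x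
  have h6 : (∑ l : V → Fin K → Fin N, ClsCov.cnt adj l U idx Q x y +
      ∑ l : V → Fin K → Fin N, ClsCov.cnt adj l U idx Q y x) / g /
      Fintype.card (V → Fin K → Fin N) ≤ 2 * K * (Δ : ℝ) ^ 2 / ((N : ℝ) ^ 2 * g) := by
    rw [div_right_comm, add_div]
    calc _ ≤ (K * (Δ : ℝ) ^ 2 / (N : ℝ) ^ 2 + K * (Δ : ℝ) ^ 2 / (N : ℝ) ^ 2) / g :=
          div_le_div_of_nonneg_right (add_le_add h4 h5) hg'.le
      _ = 2 * K * (Δ : ℝ) ^ 2 / ((N : ℝ) ^ 2 * g) := by
          rw [← two_mul, mul_div_assoc', div_div]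
          ring
  linarith

end cls

end Pool.Agent.SG4
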