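import Pool.Agent.Helper66.SG4.Back
import Pool.Agent.Helper66.SG.Balls

set_option autoImplicit false

namespace Pool.Agent.SG4

open Finset Pool.Agent.SEC Pool.Agent.SG
open scoped Classical

/-! ### M10: locality -/

namespace ClsLoc

section loc
variable {V : Type} [Fintype V] (adj : V → V → Prop)

theorem mem_ball_zero (x z : V) : z ∈ SG.ball adj 0 x ↔ z = x := by
  simp [SG.ball]

theorem mem_ball_succ (n : ℕ) (x z : V) :
    z ∈ SG.ball adj (n + 1) x ↔ (z ∈ SG.ball adj n x ∨ ∃ z' ∈ SG.ball adj n x, adj z' z) := by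
  simp [SG.ball]

theorem ball_mono {m n : ℕ} (h : m ≤ n) {x z : V} (hz : z ∈ SG.ball adj m x) :
    z ∈ SG.ball adj n x := by
  induction n, h using Nat.le_induction with
  | base => exact hz
  | succ n _ ih => exact (mem_ball_succ adj n x z).2 (Or.inl ih)

theorem self_mem (n : ℕ) (x : V) : x ∈ SG.ball adj n x :=
  ball_mono adj (Nat.zero_le n) ((mem_ball_zero adj x x).2 rfl)

theorem step {n : ℕ} {x y z : V} (h : y ∈ SG.ball adj n x) (h' : adj y z) :
    z ∈ SG.ball adj (n + 1) x :=
  (mem_ball_succ adj n x z).2 (Or.inr ⟨y, h, h'⟩)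

theorem trans {m n : ℕ} {x z w : V} (h : z ∈ SG.ball adj m x) (h' : w ∈ SG.ball adj n z) :
    w ∈ SG.ball adj (m + n) x := by
  induction n generalizing w with
  | zero =>
    rw [mem_ball_zero] at h'
    subst h'
    exact h
  | succ n ih =>
    rw [mem_ball_succ] at h'
    rcases h' with h' | ⟨z', h', ha⟩
    · exact ball_mono adj (by omega) (ih h')
    · exact step adj (ih h') ha

theorem trans' {m n p : ℕ} {x z w : V} (h : z ∈ SG.ball adj m x) (h' : w ∈ SG.ball adj n z)
    (hp : m + n ≤ p) : w ∈ SG.ball adj p x := ball_mono adj hp (trans adj h h')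

variable {K N : ℕ}

theorem rings_congr {l l' : V → Fin K → Fin N} {v : V} (h : l v = l' v) (k : ℕ) :
    rings l k v ↔ rings l' k v := by
  unfold rings
  rw [h]

theorem alive_congr {l l' : V → Fin K → Fin N} (k : ℕ) (v : V)
    (h : ∀ w ∈ SG.ball adj k v, l w = l' w) : alive adj l k v ↔ alive adj l' k v := by
  induction k generalizing v with
  | zero => simp [alive]
  | succ k ih =>
    unfold alive
    have h1 : alive adj l k v ↔ alive adj l' k v :=
      ih v (fun w hw => h w (ball_mono adj (Nat.le_succ k) hw))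
    have h2 : ∀ z, (z = v ∨ adj v z) → ((alive adj l k z ↔ alive adj l' k z) ∧
        (rings l k z ↔ rings l' k z)) := by
      intro z hz
      have hz1 : z ∈ SG.ball adj 1 v := by
        rcases hz with hz | hz
        · rw [hz]
          exact self_mem adj 1 v
        · exact step adj (self_mem adj 0 v) hz
      refine ⟨ih z (fun w hw => h w (trans' adj hz1 hw (by omega))), ?_⟩
      exact rings_congr (h z (ball_mono adj (by omega) hz1)) k
    constructor
    · rintro ⟨ha, hb⟩
      refine ⟨h1.1 ha, fun z hz hz' => ?_⟩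
      rw [← (h2 z hz).2]
      exact hb z hz ((h2 z hz).1.2 hz')
    · rintro ⟨ha, hb⟩
      refine ⟨h1.2 ha, fun z hz hz' => ?_⟩
      rw [(h2 z hz).2]
      exact hb z hz ((h2 z hz).1.1 hz')

theorem arc_imp {l l' : V → Fin K → Fin N} {k : ℕ} {z y : V}
    (h : ∀ w ∈ SG.ball adj (k + 2) z, l w = l' w) (ha : arc adj l k z y) : arc adj l' k z y := by
  obtain ⟨h1, h2, h3, h4, h5⟩ := ha
  have hy : y ∈ SG.ball adj 1 z := step adj (self_mem adj 0 z) h1
  refine ⟨h1, (alive_congr adj k z (fun w hw => h w (ball_mono adj (by omega) hw))).1 h2,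
    (alive_congr adj k y (fun w hw => h w (trans' adj hy hw (by omega)))).1 h3,
    (rings_congr (h z (self_mem adj _ z)) k).1 h4, fun w hw hw' => ?_⟩
  have hw2 : w ∈ SG.ball adj 2 z := by
    rcases hw' with hw' | hw'
    · exact ball_mono adj (by omega) (step adj (self_mem adj 0 z) hw')
    · exact step adj hy hw'
  rw [← rings_congr (h w (ball_mono adj (by omega) hw2)) k]
  exact h5 w hw hw'

theorem arc_congr {l l' : V → Fin K → Fin N} {k : ℕ} {z y : V}
    (h : ∀ w ∈ SG.ball adj (k + 2) z, l w = l' w) : arc adj l k z y ↔ arc adj l' k z y :=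
  ⟨arc_imp adj h, arc_imp adj (fun w hw => (h w hw).symm)⟩

variable (hsym : ∀ x y, adj x y → adj y x)
include hsym

theorem hd_congr {l l' : V → Fin K → Fin N} {k : ℕ} {v : V}
    (h : ∀ w ∈ SG.ball adj (k + 3) v, l w = l' w) : hd adj l k v = hd adj l' k v := by
  unfold hd
  congr 1
  ext a
  simp only [mem_filter, mem_univ, true_and]
  constructor
  · rintro ⟨h1, k', hk', h2⟩
    refine ⟨h1, k', hk', arc_imp adj (fun w hw => h w ?_) h2⟩
    have : a.1 ∈ SG.ball adj 2 v :=
      step adj (step adj (self_mem adj 0 v) h1) (hsym _ _ h2.1)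
    exact trans' adj this hw (by omega)
  · rintro ⟨h1, k', hk', h2⟩
    refine ⟨h1, k', hk', arc_imp adj (fun w hw => (h w ?_).symm) h2⟩
    have : a.1 ∈ SG.ball adj 2 v :=
      step adj (step adj (self_mem adj 0 v) h1) (hsym _ _ h2.1)
    exact trans' adj this hw (by omega)

omit hsym in
theorem psn_congr {l l' : V → Fin K → Fin N} {U : Finset (Sym2 V)} {idx : V → ℕ} {z y : V}
    (h : ∀ w ∈ SG.ball adj (K + 2) z, l w = l' w) :
    psn adj l U idx z y = psn adj l' U idx z y := by
  unfold psn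
  congr 1
  apply filter_congr
  intro y' _
  have h1 : (∃ k < K, arc adj l k z y') ↔ ∃ k < K, arc adj l' k z y' := by
    constructor
    · rintro ⟨k, hk, ha⟩
      exact ⟨k, hk, arc_imp adj (fun w hw => h w (ball_mono adj (by omega) hw)) ha⟩
    · rintro ⟨k, hk, ha⟩
      exact ⟨k, hk, arc_imp adj (fun w hw => (h w (ball_mono adj (by omega) hw)).symm) ha⟩
  rw [h1]

theorem used_imp {l l' : V → Fin K → Fin N} {U : Finset (Sym2 V)} {idx : V → ℕ} {Q : ℕ} {z y : V}
    (h : ∀ w ∈ SG.ball adj (K + 4) z, l w = l' w) (ha : (z, y) ∈ used4 adj l U idx Q) :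
    (z, y) ∈ used4 adj l' U idx Q := by
  unfold used4 at ha ⊢
  simp only [mem_filter, mem_univ, true_and] at ha ⊢
  obtain ⟨h1, k, hk, h2, h3⟩ := ha
  refine ⟨h1, k, hk, arc_imp adj (fun w hw => h w (ball_mono adj (by omega) hw)) h2, ?_⟩
  have hy : y ∈ SG.ball adj 1 z := step adj (self_mem adj 0 z) h2.1
  rw [← hd_congr adj hsym (l := l) (l' := l') (v := z) (k := k)
      (fun w hw => h w (ball_mono adj (by omega) hw)),
    ← hd_congr adj hsym (l := l) (l' := l') (v := y) (k := k)
      (fun w hw => h w (trans' adj hy hw (by omega))),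
    ← psn_congr adj (l := l) (l' := l')
      (fun w hw => h w (ball_mono adj (by omega) hw))]
  exact h3

omit hsym in
theorem used_adj {l : V → Fin K → Fin N} {U : Finset (Sym2 V)} {idx : V → ℕ} {Q : ℕ} {z y : V}
    (ha : (z, y) ∈ used4 adj l U idx Q) : adj z y := by
  unfold used4 at ha
  simp only [mem_filter, mem_univ, true_and] at ha
  obtain ⟨h1, k, hk, h2, h3⟩ := ha
  exact h2.1

omit hsym in
theorem used_arc {l : V → Fin K → Fin N} {U : Finset (Sym2 V)} {idx : V → ℕ} {Q : ℕ} {z y : V}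
    (ha : (z, y) ∈ used4 adj l U idx Q) : ∃ k < K, arc adj l k z y := by
  unfold used4 at ha
  simp only [mem_filter, mem_univ, true_and] at ha
  obtain ⟨h1, k, hk, h2, h3⟩ := ha
  exact ⟨k, hk, h2⟩

omit hsym in
theorem dl_congr {l l' : V → Fin K → Fin N} {v : V}
    (h : ∀ w ∈ SG.ball adj K v, l w = l' w) : dl adj l v = dl adj l' v := by
  unfold dl
  congr 1
  apply filter_congr
  intro k hk
  rw [mem_range] at hk
  exact alive_congr adj (k + 1) v (fun w hw => h w (ball_mono adj (by omega) hw))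

omit hsym in
theorem dl_le (l : V → Fin K → Fin N) (v : V) : dl adj l v ≤ K := by
  unfold dl
  calc _ ≤ (range K).card := card_filter_le _ _
    _ = K := card_range K

theorem back_sub {l l' : V → Fin K → Fin N} {U : Finset (Sym2 V)} {idx : V → ℕ} {Q : ℕ}
    {y : V} (h : ∀ w ∈ SG.ball adj (K + 7) y, l w = l' w) :
    back4 adj l U idx Q y ⊆ back4 adj l' U idx Q y := by
  intro y' hy'
  unfold back4 at hy' ⊢
  simp only [mem_filter, mem_univ, true_and] at hy' ⊢
  obtain ⟨z, z', h1, h2, h3⟩ := hy'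
  have hz : z ∈ SG.ball adj 1 y := step adj (self_mem adj 0 y) (hsym _ _ (used_adj adj h1))
  have hy2 : y' ∈ SG.ball adj 2 y := by
    rcases h3 with ⟨_, h3 | h3⟩ | ⟨h3, _⟩
    · exact step adj hz h3
    · exact ball_mono adj (by omega) (step adj (self_mem adj 0 y) h3)
    · rw [h3] at h2
      exact step adj hz (used_adj adj h2)
  have hz' : z' ∈ SG.ball adj 3 y := step adj hy2 (hsym _ _ (used_adj adj h2))
  refine ⟨z, z', used_imp adj hsym (fun w hw => h w (trans' adj hz hw (by omega))) h1,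
    used_imp adj hsym (fun w hw => h w (trans' adj hz' hw (by omega))) h2, ?_⟩
  rw [← dl_congr adj (l := l) (l' := l') (v := y)
      (fun w hw => h w (ball_mono adj (by omega) hw)),
    ← dl_congr adj (l := l) (l' := l') (v := y')
      (fun w hw => h w (trans' adj hy2 hw (by omega)))]
  exact h3

theorem back_congr {l l' : V → Fin K → Fin N} {U : Finset (Sym2 V)} {idx : V → ℕ} {Q : ℕ}
    {y : V} (h : ∀ w ∈ SG.ball adj (K + 7) y, l w = l' w) :
    back4 adj l U idx Q y = back4 adj l' U idx Q y :=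
  Subset.antisymm (back_sub adj hsym h) (back_sub adj hsym (fun w hw => (h w hw).symm))

theorem used_tail {l : V → Fin K → Fin N} {U : Finset (Sym2 V)} {idx : V → ℕ} {Q : ℕ} {z z' y : V}
    (h : (z, y) ∈ used4 adj l U idx Q) (h' : (z', y) ∈ used4 adj l U idx Q) : z = z' := by
  by_contra hne
  obtain ⟨k, hk, ha⟩ := used_arc adj h
  obtain ⟨k', hk', ha'⟩ := used_arc adj h'
  rcases le_total k k' with hkk | hkk
  · exact (arc_arc adj l hsym ha ha' hkk hne).2.2.1 rfl
  · exact (arc_arc adj l hsym ha' ha hkk (Ne.symm hne)).2.2.1 rfl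

theorem used_dl {l : V → Fin K → Fin N} {U : Finset (Sym2 V)} {idx : V → ℕ} {Q : ℕ} {z y : V}
    (h : (z, y) ∈ used4 adj l U idx Q) : dl adj l y = dl adj l z := by
  obtain ⟨k, hk, ha⟩ := used_arc adj h
  rw [dl_tail adj l hk ha, dl_head adj l hsym hk ha]

end loc

section cls
variable {V : Type} [Fintype V] (adj : V → V → Prop) (hsym : ∀ x y, adj x y → adj y x)
  (hirr : ∀ x, ¬ adj x x) (idx : V → ℕ) (hidx : Function.Injective idx)
  (hidc : ∀ v, idx v < Fintype.card V)
  (U : Finset (Sym2 V)) (Q : ℕ)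

include hsym hirr hidx hidc

theorem colr_congr {K N P : ℕ} (l l' : V → Fin K → Fin N) (π π' : V → Equiv.Perm (Fin P))
    (z y : V) (hu : (z, y) ∈ used4 adj l U idx Q)
    (h : ∀ v ∈ SG.ball adj (4 * K + 8) z, l v = l' v) (h' : ∀ v ∈ SG.ball adj (4 * K + 8) z, π v = π' v) :
    colr4 adj U Q idx l π y = colr4 adj U Q idx l' π' y := by
  unfold colr4
  refine gcol_congr (ord adj l idx) (back4 adj l U idx Q)
    (fun y y' hy => back4_ord adj hsym hirr idx hidx hidc U Q l y y' hy)
    (fun y y' hy => back4_ord adj hsym hirr idx hidx hidc U Q l' y y' hy) π π'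
    (fun w => ∃ zw, (zw, w) ∈ used4 adj l U idx Q ∧ dl adj l w ≤ dl adj l y ∧
      zw ∈ SG.ball adj (3 * (dl adj l y - dl adj l w)) z) ?_ y
    ⟨z, hu, le_rfl, self_mem adj _ z⟩
  rintro w ⟨zw, hw, hd, hb⟩
  have hK := dl_le adj l y
  have hwz : w ∈ SG.ball adj (3 * K + 1) z :=
    ball_mono adj (by omega) (step adj hb (used_adj adj hw))
  refine ⟨back_congr adj hsym (fun v hv => h v (trans' adj hwz hv (by omega))),
    h' w (ball_mono adj (by omega) hwz), fun w' hw' => ?_⟩
  unfold back4 at hw'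
  simp only [mem_filter, mem_univ, true_and] at hw'
  obtain ⟨z1, z1', h1, h2, h3⟩ := hw'
  have hz1 : z1 = zw := used_tail adj hsym h1 hw
  subst hz1
  refine ⟨z1', h2, ?_⟩
  rcases h3 with ⟨hlt, h3⟩ | ⟨h3, _⟩
  · refine ⟨by omega, ?_⟩
    have h4 : w' ∈ SG.ball adj 2 z1 := by
      rcases h3 with h3 | h3
      · exact ball_mono adj (by omega) (step adj (self_mem adj 0 z1) h3)
      · exact step adj (step adj (self_mem adj 0 z1) (used_adj adj h1)) h3
    have h5 : z1' ∈ SG.ball adj 3 z1 := step adj h4 (hsym _ _ (used_adj adj h2))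
    exact trans' adj hb h5 (by omega)
  · subst h3
    have e1 := used_dl adj hsym h1
    have e2 := used_dl adj hsym h2
    rw [e2, ← e1]
    exact ⟨hd, hb⟩

theorem cls_imp (K N P : ℕ) (c₀ : Fin P) (e : Sym2 V)
    (ω ω' : V → (Fin K → Fin N) × Equiv.Perm (Fin P))
    (h : ∀ v ∈ eball adj (6 * K + 12) e, ω v = ω' v)
    (he : e ∈ cls4 adj U Q idx c₀ ω) : e ∈ cls4 adj U Q idx c₀ ω' := by
  unfold cls4 at he ⊢
  simp only [mem_image, mem_filter] at he ⊢
  obtain ⟨⟨z, y⟩, ⟨hu, hc, hn⟩, hs⟩ := he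
  simp only at hu hc hn hs
  have hz : z ∈ e := by
    rw [← hs]
    exact Sym2.mem_mk_left z y
  have hball : ∀ v, v ∈ SG.ball adj (6 * K + 12) z → ω v = ω' v := by
    intro v hv
    apply h
    unfold eball
    simp only [mem_filter, mem_univ, true_and]
    exact ⟨z, hz, hv⟩
  have hl : ∀ v, v ∈ SG.ball adj (6 * K + 12) z → (ω v).1 = (ω' v).1 :=
    fun v hv => by rw [hball v hv]
  have hπ : ∀ v, v ∈ SG.ball adj (6 * K + 12) z → (ω v).2 = (ω' v).2 :=
    fun v hv => by rw [hball v hv]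
  have hzy : adj z y := used_adj adj hu
  have hy1 : y ∈ SG.ball adj 1 z := step adj (self_mem adj 0 z) hzy
  refine ⟨(z, y), ⟨?_, ?_, ?_⟩, hs⟩
  · exact used_imp adj hsym (fun w hw => hl w (ball_mono adj (by omega) hw)) hu
  · rw [← colr_congr adj hsym hirr idx hidx hidc U Q (fun v => (ω v).1) (fun v => (ω' v).1)
      (fun v => (ω v).2) (fun v => (ω' v).2) z y hu
      (fun v hv => hl v (ball_mono adj (by omega) hv))
      (fun v hv => hπ v (ball_mono adj (by omega) hv))]
    exact hc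
  · intro z' y' hyy hzz hu' hd'
    simp only at hyy hzz hd'
    have hy2 : y' ∈ SG.ball adj 2 z := step adj hy1 hyy
    have hz3 : z' ∈ SG.ball adj 3 z := step adj hy2 (hsym _ _ (used_adj adj hu'))
    have hu2 : (z', y') ∈ used4 adj (fun v => (ω v).1) U idx Q :=
      used_imp adj hsym (fun w hw => (hl w (trans' adj hz3 hw (by omega))).symm) hu'
    have hd2 : dl adj (fun v => (ω v).1) y' = dl adj (fun v => (ω v).1) y := by
      rw [dl_congr adj (l := fun v => (ω v).1) (l' := fun v => (ω' v).1) (v := y')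
          (fun w hw => hl w (trans' adj hy2 hw (by omega))),
        dl_congr adj (l := fun v => (ω v).1) (l' := fun v => (ω' v).1) (v := y)
          (fun w hw => hl w (trans' adj hy1 hw (by omega)))]
      exact hd'
    have hc2 := hn z' y' hyy hzz hu2 hd2
    rw [← colr_congr adj hsym hirr idx hidx hidc U Q (fun v => (ω v).1) (fun v => (ω' v).1)
      (fun v => (ω v).2) (fun v => (ω' v).2) z' y' hu2
      (fun v hv => hl v (trans' adj hz3 hv (by omega)))
      (fun v hv => hπ v (trans' adj hz3 hv (by omega)))]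
    exact hc2

end cls

end ClsLoc

section cls
variable {V : Type} [Fintype V] (adj : V → V → Prop) (hsym : ∀ x y, adj x y → adj y x)
  (hirr : ∀ x, ¬ adj x x) (idx : V → ℕ) (hidx : Function.Injective idx)
  (hidc : ∀ v, idx v < Fintype.card V)
  (U : Finset (Sym2 V)) (Q g : ℕ) (hg : 0 < g)

include hsym hirr hidx hidc

/-- M10: locality -/
theorem cls4_loc (K N P : ℕ) (c₀ : Fin P) (e : Sym2 V)
    (ω ω' : V → (Fin K → Fin N) × Equiv.Perm (Fin P))
    (h : ∀ v ∈ eball adj (6 * K + 12) e, ω v = ω' v) :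
    e ∈ cls4 adj U Q idx c₀ ω ↔ e ∈ cls4 adj U Q idx c₀ ω' :=
  ⟨ClsLoc.cls_imp adj hsym hirr idx hidx hidc U Q K N P c₀ e ω ω' h,
    ClsLoc.cls_imp adj hsym hirr idx hidx hidc U Q K N P c₀ e ω' ω
      (fun v hv => (h v hv).symm)⟩

end cls

end Pool.Agent.SG4
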