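import Pool.Agent.Helper66.SG4.Back
import Pool.Agent.Helper66.SEC.One

set_option autoImplicit false

namespace Pool.Agent.SG4

open Finset Pool.Agent.SEC Pool.Agent.SG
open scoped Classical

namespace ClsPair

open Pool.Agent.SEC.One

theorem pr_coord {T A : Type} [Fintype T] [DecidableEq T] [Fintype A] [Nonempty A] (t : T)
    (q : A → Prop) :
    pr (fun f : T → A => q (f t)) = pr q := by
  rw [One.pr_eq_sum, One.pr_eq_sum]
  have h1 : (∑ f : T → A, if q (f t) then (1 : ℝ) else 0) =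
      ∑ z : A × ({j // j ≠ t} → A), if q z.1 then (1 : ℝ) else 0 :=
    Fintype.sum_equiv (Equiv.funSplitAt t A) _ _ (fun f => rfl)
  have h3 : ∀ x : A, (∑ y : ({j // j ≠ t} → A), if q (x, y).1 then (1 : ℝ) else 0) =
      Fintype.card ({j // j ≠ t} → A) * (if q x then (1 : ℝ) else 0) := by
    intro x
    have h4 : (∑ y : ({j // j ≠ t} → A), if q (x, y).1 then (1 : ℝ) else 0) =
        ∑ _y : ({j // j ≠ t} → A), if q x then (1 : ℝ) else 0 :=
      Finset.sum_congr rfl (fun y _ => rfl)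
    rw [h4, Finset.sum_const, card_univ, nsmul_eq_mul]
  rw [h1, Fintype.sum_prod_type, Finset.sum_congr rfl (fun x _ => h3 x), ← Finset.mul_sum]
  rw [Fintype.card_congr (Equiv.funSplitAt t A), Fintype.card_prod]
  have h2 : (0 : ℝ) < Fintype.card ({j // j ≠ t} → A) := by
    exact_mod_cast Fintype.card_pos
  push_cast
  rw [mul_comm (Fintype.card A : ℝ), mul_div_mul_left _ _ h2.ne']

theorem pr_exists {Ω ι : Type} [Fintype Ω] (s : Finset ι) (p : ι → Ω → Prop) :
    pr (fun ω => ∃ i ∈ s, p i ω) ≤ ∑ i ∈ s, pr (p i) := by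
  induction s using Finset.induction_on with
  | empty =>
    rw [One.pr_zero (by simp)]
    simp
  | insert a s ha ih =>
    rw [Finset.sum_insert ha]
    refine le_trans ?_ (add_le_add le_rfl ih)
    refine le_trans (One.pr_mono ?_) (One.pr_or_le _ _)
    rintro ω ⟨i, hi, h⟩
    rcases mem_insert.1 hi with rfl | hi
    · exact Or.inl h
    · exact Or.inr ⟨i, hi, h⟩

theorem pr_zero_coord {N : ℕ} (hN : 0 < N) : pr (fun j : Fin N => (j : ℕ) = 0) = 1 / N := by
  rw [One.pr_eq_sum, Finset.sum_eq_single (⟨0, hN⟩ : Fin N)]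
  · simp
  · intro j _ hj
    rw [if_neg]
    intro h
    exact hj (Fin.ext h)
  · intro h
    exact absurd (mem_univ _) h

variable {V : Type} [Fintype V]

theorem pr_ring {K N : ℕ} (hN : 0 < N) (z : V) :
    pr (fun l : V → Fin K → Fin N => ∃ k, rings l k z) ≤ (K : ℝ) / N := by
  have : Nonempty (Fin N) := ⟨⟨0, hN⟩⟩
  have h1 := pr_coord (T := V) (A := Fin K → Fin N) z
    (fun a => ∃ k ∈ (univ : Finset (Fin K)), (a k : ℕ) = 0)
  have h2 : pr (fun l : V → Fin K → Fin N => ∃ k, rings l k z) ≤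
      pr (fun l : V → Fin K → Fin N => ∃ k ∈ (univ : Finset (Fin K)), (l z k : ℕ) = 0) := by
    apply One.pr_mono
    rintro l ⟨k, hk, h⟩
    exact ⟨⟨k, hk⟩, mem_univ _, h⟩
  refine h2.trans ?_
  rw [h1]
  refine (pr_exists univ (fun (k : Fin K) (a : Fin K → Fin N) => (a k : ℕ) = 0)).trans ?_
  have h3 : ∀ k : Fin K, pr (fun a : Fin K → Fin N => (a k : ℕ) = 0) = 1 / N := by
    intro k
    rw [pr_coord (T := Fin K) (A := Fin N) k (fun j => (j : ℕ) = 0)]
    exact pr_zero_coord hN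
  simp only [h3, Finset.sum_const, card_univ, Fintype.card_fin, nsmul_eq_mul]
  exact le_of_eq (by ring)

theorem pr_two {K N : ℕ} (hN : 0 < N) {z z' : V} (h : z ≠ z') :
    pr (fun l : V → Fin K → Fin N => (∃ k, rings l k z) ∧ ∃ k, rings l k z') ≤
      ((K : ℝ) / N) ^ 2 := by
  have : Nonempty (Fin N) := ⟨⟨0, hN⟩⟩
  have h1 := LLL.indep ({z} : Finset V) (fun l : V → Fin K → Fin N => ∃ k, rings l k z)
    (fun l => ∃ k, rings l k z') (by
      intro l l' hl
      have h2 := hl z (mem_singleton_self z)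
      simp only [rings, h2]) (by
      intro l l' hl
      have h2 := hl z' (by rw [mem_singleton]; exact h.symm)
      simp only [rings, h2])
  have hc : (0 : ℝ) < Fintype.card (V → Fin K → Fin N) := by
    exact_mod_cast Fintype.card_pos
  have h3 : pr (fun l : V → Fin K → Fin N => (∃ k, rings l k z) ∧ ∃ k, rings l k z') =
      pr (fun l : V → Fin K → Fin N => ∃ k, rings l k z) *
        pr (fun l : V → Fin K → Fin N => ∃ k, rings l k z') := by
    unfold pr
    unfold LLL.num at h1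
    rw [div_mul_div_comm, ← h1, mul_div_mul_right _ _ hc.ne']
  rw [h3, sq]
  exact mul_le_mul (pr_ring hN z) (pr_ring hN z') (One.pr_nonneg _)
    (div_nonneg (Nat.cast_nonneg _) (Nat.cast_nonneg _))

end ClsPair

/-! ### M9: pairs -/

section cls
variable {V : Type} [Fintype V] (adj : V → V → Prop) (hsym : ∀ x y, adj x y → adj y x)
  (hirr : ∀ x, ¬ adj x x) (idx : V → ℕ) (hidx : Function.Injective idx)
  (hidc : ∀ v, idx v < Fintype.card V)
  (U : Finset (Sym2 V)) (Q g : ℕ) (hg : 0 < g)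

include hsym hirr hidx hidc

/-- one choice of the tails -/
theorem ClsPair.one (K N P : ℕ) (hN : 0 < N) (c₀ : Fin P) (hP : Q < P) (z y z' : V)
    (h : z ≠ z') :
    pr (fun ω : V → (Fin K → Fin N) × Equiv.Perm (Fin P) =>
      ((∃ k, rings (fun v => (ω v).1) k z) ∧ ∃ k, rings (fun v => (ω v).1) k z') ∧
      colr4 adj U Q idx (fun v => (ω v).1) (fun v => (ω v).2) y = some c₀) ≤
      ((K : ℝ) / N) ^ 2 / P := by
  have h2 := One.pr_split (X := V) (α := Fin K → Fin N) (β := Equiv.Perm (Fin P))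
    (fun l π => ((∃ k, rings l k z) ∧ ∃ k, rings l k z') ∧
      colr4 adj U Q idx l π y = some c₀)
  rw [h2]
  have h3 : ∀ l : V → Fin K → Fin N, pr (fun π : V → Equiv.Perm (Fin P) =>
      ((∃ k, rings l k z) ∧ ∃ k, rings l k z') ∧ colr4 adj U Q idx l π y = some c₀) ≤
      (if (∃ k, rings l k z) ∧ ∃ k, rings l k z' then (1 : ℝ) else 0) / P := by
    intro l
    by_cases hl : (∃ k, rings l k z) ∧ ∃ k, rings l k z'
    · simp only [hl, and_self, true_and, if_true]
      apply le_of_eq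
      exact pr_gcol (ord adj l idx) (back4 adj l U idx Q)
        (fun y y' h => back4_ord adj hsym hirr idx hidx hidc U Q l y y' h)
        (fun y => lt_of_le_of_lt (card_back4 adj hsym hirr idx hidx hidc U Q l y) hP) y c₀
    · rw [if_neg hl, zero_div, One.pr_zero (fun ω hω => hl hω.1)]
  have h4 : (∑ l : V → Fin K → Fin N, pr (fun π : V → Equiv.Perm (Fin P) =>
      ((∃ k, rings l k z) ∧ ∃ k, rings l k z') ∧ colr4 adj U Q idx l π y = some c₀)) /
      Fintype.card (V → Fin K → Fin N) ≤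
      pr (fun l : V → Fin K → Fin N => (∃ k, rings l k z) ∧ ∃ k, rings l k z') / P := by
    rw [One.pr_eq_sum (fun l : V → Fin K → Fin N => (∃ k, rings l k z) ∧ ∃ k, rings l k z'),
      div_right_comm]
    refine div_le_div_of_nonneg_right ?_ (Nat.cast_nonneg _)
    rw [Finset.sum_div]
    exact Finset.sum_le_sum (fun l _ => (h3 l).trans_eq (by congr))
  refine h4.trans ?_
  exact div_le_div_of_nonneg_right (ClsPair.pr_two hN h) (Nat.cast_nonneg _)

/-- M9: pairs -/
theorem cls4_pair (K N P : ℕ) (hN : 0 < N) (c₀ : Fin P) (hP : Q < P) (e e' : Sym2 V)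
    (hne : e ≠ e') :
    pr (fun ω : V → (Fin K → Fin N) × Equiv.Perm (Fin P) =>
      e ∈ cls4 adj U Q idx c₀ ω ∧ e' ∈ cls4 adj U Q idx c₀ ω) ≤
      4 * ((K : ℝ) / N) ^ 2 / P := by
  induction e using Sym2.ind with | _ x y => ?_
  induction e' using Sym2.ind with | _ x' y' => ?_
  let QQ : V → V → V → (V → (Fin K → Fin N) × Equiv.Perm (Fin P)) → Prop := fun z y z' ω =>
    z ≠ z' ∧ ((∃ k, rings (fun v => (ω v).1) k z) ∧ ∃ k, rings (fun v => (ω v).1) k z') ∧
      colr4 adj U Q idx (fun v => (ω v).1) (fun v => (ω v).2) y = some c₀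
  have hQ : ∀ z y z', pr (QQ z y z') ≤ ((K : ℝ) / N) ^ 2 / P := by
    intro z y z'
    by_cases h : z = z'
    · rw [One.pr_zero (fun ω hω => hω.1 h)]
      positivity
    · refine le_trans (One.pr_mono (fun ω hω => hω.2)) ?_
      exact ClsPair.one adj hsym hirr idx hidx hidc U Q K N P hN c₀ hP z y z' h
  have hmem : ∀ (ω : V → (Fin K → Fin N) × Equiv.Perm (Fin P)) (x y : V),
      s(x, y) ∈ cls4 adj U Q idx c₀ ω → ∃ z w, ((z = x ∧ w = y) ∨ (z = y ∧ w = x)) ∧
        (∃ k, rings (fun v => (ω v).1) k z) ∧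
        colr4 adj U Q idx (fun v => (ω v).1) (fun v => (ω v).2) w = some c₀ := by
    intro ω x y h
    unfold cls4 at h
    rw [mem_image] at h
    obtain ⟨a, ha, hs⟩ := h
    rw [mem_filter] at ha
    refine ⟨a.1, a.2, Sym2.eq_iff.1 hs, ?_, ha.2.1⟩
    have h1 := ha.1
    unfold used4 at h1
    rw [mem_filter] at h1
    obtain ⟨k, _, h2, _⟩ := h1.2.2
    exact ⟨k, h2.2.2.2.1⟩
  have hsub : ∀ ω : V → (Fin K → Fin N) × Equiv.Perm (Fin P),
      (s(x, y) ∈ cls4 adj U Q idx c₀ ω ∧ s(x', y') ∈ cls4 adj U Q idx c₀ ω) →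
      ((QQ x y x' ω ∨ QQ x y y' ω) ∨ (QQ y x x' ω ∨ QQ y x y' ω)) := by
    rintro ω ⟨h, h'⟩
    have hc := cls4_ind adj hsym hirr idx hidx hidc U Q c₀ hP ω _ _ h h' hne
    obtain ⟨z, w, h1, h2, h3⟩ := hmem ω x y h
    obtain ⟨z', w', h1', h2', _⟩ := hmem ω x' y' h'
    have hzz : z ≠ z' := by
      intro hz
      apply hc
      refine ⟨z, ?_, z', ?_, Or.inl hz⟩
      · rcases h1 with ⟨rfl, _⟩ | ⟨rfl, _⟩ <;> simp
      · rcases h1' with ⟨rfl, _⟩ | ⟨rfl, _⟩ <;> simp
    have hq : QQ z w z' ω := ⟨hzz, ⟨h2, h2'⟩, h3⟩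
    rcases h1 with ⟨rfl, rfl⟩ | ⟨rfl, rfl⟩ <;> rcases h1' with ⟨rfl, rfl⟩ | ⟨rfl, rfl⟩
    · exact Or.inl (Or.inl hq)
    · exact Or.inl (Or.inr hq)
    · exact Or.inr (Or.inl hq)
    · exact Or.inr (Or.inr hq)
  refine (One.pr_mono hsub).trans ?_
  refine (One.pr_or_le _ _).trans ?_
  refine (add_le_add (One.pr_or_le _ _) (One.pr_or_le _ _)).trans ?_
  have h1 := hQ x y x'
  have h2 := hQ x y y'
  have h3 := hQ y x x'
  have h4 := hQ y x y'
  have h5 : 4 * ((K : ℝ) / N) ^ 2 / P = ((K : ℝ) / N) ^ 2 / P + ((K : ℝ) / N) ^ 2 / P +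
      (((K : ℝ) / N) ^ 2 / P + ((K : ℝ) / N) ^ 2 / P) := by ring
  rw [h5]
  exact add_le_add (add_le_add h1 h2) (add_le_add h3 h4)

end cls

end Pool.Agent.SG4
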