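import Pool.Agent.Helper66.SG4.Gain
import Pool.Agent.Helper66.SEC.Phase
import Pool.Agent.Helper66.SEC.Tail

set_option autoImplicit false

namespace Pool.Agent.SG4

open Finset Pool.Agent.SEC Pool.Agent.SG
open scoped Classical

/-! ### M5: the coverage by the used arcs, for the thresholds `Q t` and the two orders -/

namespace Cover4

open Pool.Agent.SEC.Tail (ind)

variable {V : Type} [Fintype V]

/-- the number of small indices is bounded -/
theorem card_small (n : ℕ) (r : ℝ) (hr : 0 ≤ r) :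
    ((univ.filter (fun t : Fin n => ((t : ℕ) : ℝ) + 1 < r)).card : ℝ) ≤ r := by
  have h1 : (univ.filter (fun t : Fin n => ((t : ℕ) : ℝ) + 1 < r)).card ≤ (range ⌊r⌋₊).card := by
    refine card_le_card_of_injOn (fun t => (t : ℕ)) ?_ ?_
    · intro t ht
      simp only [coe_filter, mem_univ, true_and, Set.mem_ofPred_eq] at ht
      have h2 : (t : ℕ) + 1 ≤ ⌊r⌋₊ := Nat.le_floor (by push_cast; exact ht.le)
      simp only [coe_range, Set.mem_Iio]
      omega
    · intro t _ t' _ h
      exact Fin.ext h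
  rw [card_range] at h1
  exact (Nat.cast_le.2 h1).trans (Nat.floor_le hr)

/-- heads of arcs at `v` -/
theorem card_hd_le (adj : V → V → Prop) (hsym : ∀ x y, adj x y → adj y x) {K N : ℕ}
    (l : V → Fin K → Fin N) (Δ : ℕ) (hdeg : ∀ v, (nb adj v).card ≤ Δ) (k : ℕ) (v : V) :
    (hd adj l k v).card ≤ Δ := by
  have h1 := card_alive_add_hd adj l hsym k v
  have h2 := hdeg v
  omega

/-- the heads of the star of `x` with edge in `U` -/
noncomputable def star (adj : V → V → Prop) {K N : ℕ} (l : V → Fin K → Fin N)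
    (U : Finset (Sym2 V)) (x : V) : Finset V :=
  univ.filter (fun y' => s(x, y') ∈ U ∧ ∃ k < K, arc adj l k x y')

theorem psn_le (adj : V → V → Prop) {K N : ℕ} (l : V → Fin K → Fin N)
    (U : Finset (Sym2 V)) (idx : V → ℕ) (x y : V) : psn adj l U idx x y ≤ (star adj l U x).card := by
  unfold psn star
  refine card_le_card ?_
  intro v hv
  simp only [mem_filter, mem_univ, true_and] at hv ⊢
  exact ⟨hv.1, hv.2.1⟩

theorem psn_add (adj : V → V → Prop) {K N : ℕ} (l : V → Fin K → Fin N)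
    (U : Finset (Sym2 V)) (idx idx' : V → ℕ)
    (hidx' : ∀ u v, idx' u < idx' v ↔ idx v < idx u) (x y : V) :
    psn adj l U idx x y + psn adj l U idx' x y ≤ (star adj l U x).card := by
  unfold psn star
  rw [← card_union_of_disjoint]
  · refine card_le_card ?_
    intro v hv
    simp only [mem_union, mem_filter, mem_univ, true_and] at hv ⊢
    rcases hv with hv | hv
    · exact ⟨hv.1, hv.2.1⟩
    · exact ⟨hv.1, hv.2.1⟩
  · rw [disjoint_left]
    intro v hv hv'
    simp only [mem_filter, mem_univ, true_and] at hv hv'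
    have h1 := hv.2.2
    have h2 := (hidx' v y).1 hv'.2.2
    omega

/-- the star of `x` is contained in the heads of the next level -/
theorem star_le (adj : V → V → Prop) (hsym : ∀ x y, adj x y → adj y x) (hirr : ∀ x, ¬ adj x x)
    {K N : ℕ} (l : V → Fin K → Fin N) (U : Finset (Sym2 V)) {k : ℕ} {x y : V}
    (harc : arc adj l k x y) :
    (hd adj l k x ∩ U).card + (star adj l U x).card ≤ (hd adj l (k + 1) x ∩ U).card := by
  have hinj : (star adj l U x).card = ((star adj l U x).image (fun y' => s(x, y'))).card := by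
    rw [card_image_of_injective]
    intro a b hab
    exact Sym2.congr_right.1 hab
  rw [hinj, ← card_union_of_disjoint]
  · refine card_le_card ?_
    intro e he
    rw [mem_union] at he
    rw [mem_inter]
    rcases he with he | he
    · rw [mem_inter] at he
      refine ⟨?_, he.2⟩
      have h1 := he.1
      unfold hd at h1 ⊢
      rw [mem_image] at h1 ⊢
      obtain ⟨a, ha, hae⟩ := h1
      refine ⟨a, ?_, hae⟩
      rw [mem_filter] at ha ⊢
      obtain ⟨_, h2, k', hk', h3⟩ := ha
      exact ⟨mem_univ _, h2, k', by omega, h3⟩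
    · rw [mem_image] at he
      obtain ⟨y', hy', rfl⟩ := he
      unfold star at hy'
      rw [mem_filter] at hy'
      obtain ⟨_, h1, k', hk', h2⟩ := hy'
      refine ⟨?_, h1⟩
      have h3 : k' = k := arc_same adj l hsym h2 harc
      subst h3
      unfold hd
      rw [mem_image]
      refine ⟨(x, y'), ?_, rfl⟩
      rw [mem_filter]
      exact ⟨mem_univ _, h2.1, k', by omega, h2⟩
  · rw [disjoint_left]
    intro e he he'
    rw [mem_inter] at he
    rw [mem_image] at he'
    obtain ⟨y', hy', rfl⟩ := he'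
    unfold star at hy'
    rw [mem_filter] at hy'
    obtain ⟨_, _, k', hk', h2⟩ := hy'
    have h3 : k' = k := arc_same adj l hsym h2 harc
    subst h3
    have h1 := he.1
    unfold hd at h1
    rw [mem_image] at h1
    obtain ⟨⟨z, w⟩, ha, hae⟩ := h1
    rw [mem_filter] at ha
    obtain ⟨_, h4, k'', hk'', h5⟩ := ha
    dsimp only at h4 h5 hae
    rcases Sym2.eq_iff.1 hae with ⟨rfl, rfl⟩ | ⟨rfl, rfl⟩
    · have := arc_same adj l hsym h5 h2
      omega
    · exact hirr _ h4

/-- one order: if there are `c` obstructions, all thresholds but about `m c / D` are fine -/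
theorem one_order (adj : V → V → Prop) {K N m m' : ℕ} (hm0 : 0 < m)
    (U : Finset (Sym2 V)) (D a : ℝ) (hD : 0 < D) (ha : 0 ≤ a)
    (idx : V → ℕ) (Q : Fin (2 * m + m') → ℕ)
    (hQ : ∀ t, Q t = ⌊min (((t : ℕ) + 1 : ℝ) / m) 2 * D + 2 * a⌋₊ + 1)
    (l : V → Fin K → Fin N) {x y : V} (hxU : s(x, y) ∈ U) {k : ℕ} (hk : k < K)
    (harc : arc adj l k x y)
    (c : ℕ) (hc : c = (hd adj l k x ∩ U).card + psn adj l U idx x y + (hd adj l k y ∩ U).card)
    (hc2 : (c : ℝ) ≤ 2 * D + 2 * a) :
    ((2 * m + m' : ℕ) : ℝ) - m * c / D ≤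
      ∑ t, ind ((x, y) ∈ used4 adj l U idx (Q t)) := by
  have hm' : (0 : ℝ) < m := by exact_mod_cast hm0
  have hr : 0 ≤ (m : ℝ) * c / D := by positivity
  have hsmall := card_small (2 * m + m') (m * c / D) hr
  have hused : ∀ t : Fin (2 * m + m'), ¬ (((t : ℕ) : ℝ) + 1 < m * c / D) →
      (x, y) ∈ used4 adj l U idx (Q t) := by
    intro t ht
    rw [not_lt] at ht
    unfold used4
    rw [mem_filter]
    refine ⟨mem_univ _, hxU, k, hk, harc, ?_⟩
    dsimp only
    rw [← hc, hQ t]
    apply Nat.lt_succ_of_le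
    apply Nat.le_floor
    have h1 : (c : ℝ) ≤ ((t : ℕ) + 1 : ℝ) / m * D := by
      rw [div_le_iff₀ hD] at ht
      rw [div_mul_eq_mul_div, le_div_iff₀ hm']
      linarith
    rcases le_total (((t : ℕ) + 1 : ℝ) / m) 2 with h2 | h2
    · rw [min_eq_left h2]
      linarith
    · rw [min_eq_right h2]
      exact hc2
  have h1 := card_filter_add_card_filter_not (s := (univ : Finset (Fin (2 * m + m'))))
    (fun t => ((t : ℕ) : ℝ) + 1 < m * c / D)
  rw [card_univ, Fintype.card_fin] at h1
  have h2 : ((univ.filter (fun t : Fin (2 * m + m') =>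
      ¬ (((t : ℕ) : ℝ) + 1 < m * c / D))).card : ℝ)
      ≤ ∑ t, ind ((x, y) ∈ used4 adj l U idx (Q t)) := by
    rw [Pool.Agent.SEC.Tail.sum_ind]
    refine Nat.cast_le.2 (card_le_card fun t ht => ?_)
    rw [mem_filter] at ht ⊢
    exact ⟨ht.1, hused t ht.2⟩
  have h3 : ((univ.filter (fun t : Fin (2 * m + m') => ((t : ℕ) : ℝ) + 1 < m * c / D)).card : ℝ) +
      ((univ.filter (fun t : Fin (2 * m + m') => ¬ (((t : ℕ) : ℝ) + 1 < m * c / D))).card : ℝ) =
      ((2 * m + m' : ℕ) : ℝ) := by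
    exact_mod_cast h1
  linarith

/-- if no test fails then an arc is used for many thresholds and orders -/
theorem one (adj : V → V → Prop) (hsym : ∀ x y, adj x y → adj y x) (hirr : ∀ x, ¬ adj x x)
    (Δ K N m m' : ℕ) (hΔ : 0 < Δ) (hm0 : 0 < m)
    (hdeg : ∀ v, (nb adj v).card ≤ Δ)
    (U : Finset (Sym2 V)) (D a : ℝ) (hD : 0 < D) (ha : 0 ≤ a)
    (idx idx' : V → ℕ) (hidx' : ∀ u v, idx' u < idx' v ↔ idx v < idx u)
    (Q : Fin (2 * m + m') → ℕ)
    (hQ : ∀ t, Q t = ⌊min (((t : ℕ) + 1 : ℝ) / m) 2 * D + 2 * a⌋₊ + 1)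
    (l : V → Fin K → Fin N) {x y : V} (hxU : s(x, y) ∈ U)
    (hx : ∀ k < K + 1, ((hd adj l k x ∩ U).card : ℝ) ≤ D / Δ * (hd adj l k x).card + a)
    (hy : ∀ k < K + 1, ((hd adj l k y ∩ U).card : ℝ) ≤ D / Δ * (hd adj l k y).card + a)
    {k : ℕ} (hk : k < K) (harc : arc adj l k x y) :
    (m * (3 - (hd adj l k x).card / Δ - 2 * ((hd adj l k y).card / Δ)) + 2 * m' : ℝ) -
        4 * m * a / D ≤
      ∑ t, (ind ((x, y) ∈ used4 adj l U idx (Q t)) + ind ((x, y) ∈ used4 adj l U idx' (Q t))) := by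
  have hΔ' : (0 : ℝ) < Δ := by exact_mod_cast hΔ
  have hm' : (0 : ℝ) < m := by exact_mod_cast hm0
  have hle : ∀ (j : ℕ) (v : V), D / Δ * ((hd adj l j v).card : ℝ) ≤ D := by
    intro j v
    have h1 : ((hd adj l j v).card : ℝ) ≤ Δ := by
      exact_mod_cast card_hd_le adj hsym l Δ hdeg j v
    have h2 := mul_le_mul_of_nonneg_left h1 (by positivity : 0 ≤ D / Δ)
    rw [div_mul_cancel₀ _ hΔ'.ne'] at h2
    exact h2
  have h1 := hx k (by omega)
  have h2 := hx (k + 1) (by omega)
  have h3 := hy k (by omega)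
  have h4 := hle (k + 1) x
  have h5 := hle k y
  have hst := star_le adj hsym hirr l U harc
  have hst' : ((hd adj l k x ∩ U).card : ℝ) + (star adj l U x).card ≤
      (hd adj l (k + 1) x ∩ U).card := by exact_mod_cast hst
  have hp1 : (psn adj l U idx x y : ℝ) ≤ (star adj l U x).card := by
    exact_mod_cast psn_le adj l U idx x y
  have hp2 : (psn adj l U idx' x y : ℝ) ≤ (star adj l U x).card := by
    exact_mod_cast psn_le adj l U idx' x y
  have hp3 : (psn adj l U idx x y : ℝ) + psn adj l U idx' x y ≤ (star adj l U x).card := by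
    exact_mod_cast psn_add adj l U idx idx' hidx' x y
  set c : ℕ := (hd adj l k x ∩ U).card + psn adj l U idx x y + (hd adj l k y ∩ U).card with hc
  set c' : ℕ := (hd adj l k x ∩ U).card + psn adj l U idx' x y + (hd adj l k y ∩ U).card with hc'
  have hcr : (c : ℝ) = (hd adj l k x ∩ U).card + psn adj l U idx x y + (hd adj l k y ∩ U).card := by
    rw [hc]; push_cast; ring
  have hcr' : (c' : ℝ) =
      (hd adj l k x ∩ U).card + psn adj l U idx' x y + (hd adj l k y ∩ U).card := by
    rw [hc']; push_cast; ring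
  have o1 := one_order adj hm0 U D a hD ha idx Q hQ l hxU hk harc c hc (by linarith)
  have o2 := one_order adj hm0 U D a hD ha idx' Q hQ l hxU hk harc c' hc' (by linarith)
  rw [Finset.sum_add_distrib]
  have hcc : (c : ℝ) + c' ≤ D * (1 + (hd adj l k x).card / Δ + 2 * ((hd adj l k y).card / Δ)) +
      4 * a := by
    have e1 : D * (1 + (hd adj l k x).card / Δ + 2 * ((hd adj l k y).card / Δ)) =
        D + D / Δ * (hd adj l k x).card + 2 * (D / Δ * (hd adj l k y).card) := by ring
    rw [e1]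
    linarith
  have h6 : (m : ℝ) * c / D + m * c' / D ≤
      m * (1 + (hd adj l k x).card / Δ + 2 * ((hd adj l k y).card / Δ)) + 4 * m * a / D := by
    have e2 : (m : ℝ) * c / D + m * c' / D = (m / D) * (c + c') := by ring
    have e3 : m * (1 + ((hd adj l k x).card : ℝ) / Δ + 2 * ((hd adj l k y).card / Δ)) +
        4 * m * a / D = (m / D) * (D * (1 + (hd adj l k x).card / Δ +
          2 * ((hd adj l k y).card / Δ)) + 4 * a) := by
      field_simp
    rw [e2, e3]
    exact mul_le_mul_of_nonneg_left hcc (by positivity)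
  push_cast at o1 o2
  linarith

/-- the payoff of an arc -/
noncomputable def pay (adj : V → V → Prop) {K N : ℕ} (Δ m m' : ℕ) (l : V → Fin K → Fin N) (k : ℕ)
    (x y : V) : ℝ :=
  m * (3 - (hd adj l k x).card / Δ - 2 * ((hd adj l k y).card / Δ)) + 2 * m'

/-- the pointwise inequality -/
theorem ptw (adj : V → V → Prop) (hsym : ∀ x y, adj x y → adj y x) (hirr : ∀ x, ¬ adj x x)
    (Δ K N m m' : ℕ) (hΔ : 0 < Δ) (hm0 : 0 < m)
    (hdeg : ∀ v, (nb adj v).card ≤ Δ)
    (U : Finset (Sym2 V)) (D a : ℝ) (hD : 0 < D) (ha : 0 ≤ a)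
    (idx idx' : V → ℕ) (hidx' : ∀ u v, idx' u < idx' v ↔ idx v < idx u)
    (Q : Fin (2 * m + m') → ℕ)
    (hQ : ∀ t, Q t = ⌊min (((t : ℕ) + 1 : ℝ) / m) 2 * D + 2 * a⌋₊ + 1)
    (l : V → Fin K → Fin N) {x y : V} (hxy : adj x y) (hxU : s(x, y) ∈ U) :
    (∑ k ∈ range K, ((if arc adj l k x y then pay adj Δ m m' l k x y else 0) +
        (if arc adj l k y x then pay adj Δ m m' l k y x else 0))) -
      4 * m * a / D * (∑ k ∈ range K, ((if arc adj l k x y then (1 : ℝ) else 0) +
        (if arc adj l k y x then (1 : ℝ) else 0))) -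
      2 * (2 * m + m') * ind (∃ i ∈ ({x, y} : Finset V) ×ˢ (univ : Finset (Fin (K + 1))),
        D / Δ * ((test adj K N (i.1, some i.2) l).card : ℝ) + a <
          ((test adj K N (i.1, some i.2) l ∩ U).card : ℝ)) ≤
    ∑ t, (ind ((x, y) ∈ used4 adj l U idx (Q t) ∨ (y, x) ∈ used4 adj l U idx (Q t)) +
      ind ((x, y) ∈ used4 adj l U idx' (Q t) ∨ (y, x) ∈ used4 adj l U idx' (Q t))) := by
  have hΔ' : (0 : ℝ) < Δ := by exact_mod_cast hΔ
  have hm' : (0 : ℝ) < m := by exact_mod_cast hm0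
  have hind0 : ∀ P : Prop, 0 ≤ ind P := by
    intro P
    by_cases h : P
    · rw [Pool.Agent.SEC.Tail.ind_pos h]; norm_num
    · rw [Pool.Agent.SEC.Tail.ind_neg h]
  have hmono : ∀ P Q : Prop, (P → Q) → ind P ≤ ind Q := by
    intro P Q hPQ
    by_cases h : P
    · rw [Pool.Agent.SEC.Tail.ind_pos h, Pool.Agent.SEC.Tail.ind_pos (hPQ h)]
    · rw [Pool.Agent.SEC.Tail.ind_neg h]; exact hind0 Q
  have hne : x ≠ y := by
    rintro rfl
    exact hirr x hxy
  -- an arc excludes everything else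
  have hexcl : ∀ {u v : V}, u ≠ v → adj u v → ∀ {k k' : ℕ}, arc adj l k u v → ¬ arc adj l k' v u := by
    intro u v huv hadj k k' h h'
    rcases Nat.lt_trichotomy k k' with hlt | heq | hgt
    · exact arc_dead_tail adj l h (alive_mono adj l hlt h'.2.2.1)
    · subst heq
      exact h.2.2.2.2 v (Ne.symm huv) (Or.inl hadj) h'.2.2.2.1
    · exact arc_dead_tail adj l h' (alive_mono adj l hgt h.2.2.1)
  -- the sum of the weights
  have hval : ∀ (p : ℕ → V → V → ℝ) {u v : V}, u ≠ v → adj u v → ∀ {k : ℕ}, k < K →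
      arc adj l k u v →
      ∑ k ∈ range K, ((if arc adj l k u v then p k u v else 0) +
        (if arc adj l k v u then p k v u else 0)) = p k u v := by
    intro p u v huv hadj k hk h
    rw [Finset.sum_eq_single_of_mem k (mem_range.2 hk)]
    · rw [if_pos h, if_neg (hexcl huv hadj h), add_zero]
    · intro j _ hj
      rw [if_neg, if_neg (hexcl huv hadj h), add_zero]
      intro h'
      exact hj (arc_same adj l hsym h' h)
  have hnone : ∀ (p : ℕ → V → V → ℝ), (∀ k < K, ¬ arc adj l k x y) → (∀ k < K, ¬ arc adj l k y x) →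
      ∑ k ∈ range K, ((if arc adj l k x y then p k x y else 0) +
        (if arc adj l k y x then p k y x else 0)) = 0 := by
    intro p h1 h2
    rw [Finset.sum_eq_zero]
    intro k hk
    rw [if_neg (h1 k (mem_range.1 hk)), if_neg (h2 k (mem_range.1 hk)), add_zero]
  have hle : ∀ (u v : V) (k : ℕ), pay adj Δ m m' l k u v ≤ 2 * (2 * m + m') := by
    intro u v k
    unfold pay
    have h1 : (0 : ℝ) ≤ (hd adj l k u).card / Δ := by positivity
    have h2 : (0 : ℝ) ≤ (hd adj l k v).card / Δ := by positivity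
    have h3 : (m : ℝ) * (3 - (hd adj l k u).card / Δ - 2 * ((hd adj l k v).card / Δ)) ≤ m * 3 :=
      mul_le_mul_of_nonneg_left (by linarith) hm'.le
    linarith
  have hRnn : 0 ≤ ∑ t, (ind ((x, y) ∈ used4 adj l U idx (Q t) ∨ (y, x) ∈ used4 adj l U idx (Q t)) +
      ind ((x, y) ∈ used4 adj l U idx' (Q t) ∨ (y, x) ∈ used4 adj l U idx' (Q t))) :=
    Finset.sum_nonneg fun t _ => add_nonneg (hind0 _) (hind0 _)
  have hloss : 0 ≤ 4 * m * a / D * (∑ k ∈ range K, ((if arc adj l k x y then (1 : ℝ) else 0) +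
        (if arc adj l k y x then (1 : ℝ) else 0))) := by
    refine mul_nonneg (by positivity) (Finset.sum_nonneg fun k _ => ?_)
    split_ifs <;> norm_num
  by_cases hbad : ∃ i ∈ ({x, y} : Finset V) ×ˢ (univ : Finset (Fin (K + 1))),
        D / Δ * ((test adj K N (i.1, some i.2) l).card : ℝ) + a <
          ((test adj K N (i.1, some i.2) l ∩ U).card : ℝ)
  · rw [Pool.Agent.SEC.Tail.ind_pos hbad, mul_one]
    have hS : ∑ k ∈ range K, ((if arc adj l k x y then pay adj Δ m m' l k x y else 0) +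
        (if arc adj l k y x then pay adj Δ m m' l k y x else 0)) ≤ 2 * (2 * m + m') := by
      by_cases h1 : ∃ k < K, arc adj l k x y
      · obtain ⟨k, hk, h1⟩ := h1
        rw [hval (pay adj Δ m m' l) hne hxy hk h1]
        exact hle x y k
      · by_cases h2 : ∃ k < K, arc adj l k y x
        · obtain ⟨k, hk, h2⟩ := h2
          have h3 := hval (pay adj Δ m m' l) hne.symm (hsym _ _ hxy) hk h2
          rw [Finset.sum_congr rfl (fun k _ => add_comm _ _), h3]
          exact hle y x k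
        · push Not at h1 h2
          rw [hnone (pay adj Δ m m' l) h1 h2]
          positivity
    linarith
  · rw [Pool.Agent.SEC.Tail.ind_neg hbad, mul_zero, sub_zero]
    have htest : ∀ u ∈ ({x, y} : Finset V), ∀ k < K + 1,
        ((hd adj l k u ∩ U).card : ℝ) ≤ D / Δ * (hd adj l k u).card + a := by
      intro u hu k hk
      by_contra hcon
      rw [not_le] at hcon
      apply hbad
      refine ⟨(u, ⟨k, hk⟩), ?_, ?_⟩
      · rw [mem_product]
        exact ⟨hu, mem_univ _⟩
      · exact hcon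
    have htx := htest x (by simp)
    have hty := htest y (by simp)
    by_cases h1 : ∃ k < K, arc adj l k x y
    · obtain ⟨k, hk, h1⟩ := h1
      rw [hval (pay adj Δ m m' l) hne hxy hk h1, hval (fun _ _ _ => (1 : ℝ)) hne hxy hk h1, mul_one]
      refine (one adj hsym hirr Δ K N m m' hΔ hm0 hdeg U D a hD ha idx idx' hidx' Q hQ l hxU
        htx hty hk h1).trans ?_
      exact Finset.sum_le_sum fun t _ => add_le_add (hmono _ _ Or.inl) (hmono _ _ Or.inl)
    · by_cases h2 : ∃ k < K, arc adj l k y x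
      · obtain ⟨k, hk, h2⟩ := h2
        have h3 := hval (pay adj Δ m m' l) hne.symm (hsym _ _ hxy) hk h2
        have h4 := hval (fun _ _ _ => (1 : ℝ)) hne.symm (hsym _ _ hxy) hk h2
        rw [Finset.sum_congr rfl (fun k _ => add_comm (if arc adj l k x y then
          pay adj Δ m m' l k x y else 0) _), h3,
          Finset.sum_congr rfl (fun k _ => add_comm (if arc adj l k x y then (1 : ℝ) else 0) _),
          h4, mul_one]
        have hyU : s(y, x) ∈ U := by
          rw [Sym2.eq_swap]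
          exact hxU
        refine (one adj hsym hirr Δ K N m m' hΔ hm0 hdeg U D a hD ha idx idx' hidx' Q hQ l hyU
          hty htx hk h2).trans ?_
        exact Finset.sum_le_sum fun t _ => add_le_add (hmono _ _ Or.inr) (hmono _ _ Or.inr)
      · push Not at h1 h2
        rw [hnone (pay adj Δ m m' l) h1 h2, hnone (fun _ _ _ => (1 : ℝ)) h1 h2]
        linarith

/-- the probability of an arc -/
theorem ex_arc_le (adj : V → V → Prop) {K N : ℕ} (hN : 0 < N) (k : ℕ) (hk : k < K) (x y : V) :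
    ex (fun l : V → Fin K → Fin N => if arc adj l k x y then (1 : ℝ) else 0) ≤ 1 / N := by
  have : Nonempty (Fin N) := ⟨⟨0, hN⟩⟩
  have h1 := Gain.ring_one (V := V) (K := K) hN x ⟨k, hk⟩ (fun _ => (1 : ℝ)) (fun _ _ => rfl)
  have h2 : ex (fun _ : V → Fin K → Fin N => (1 : ℝ)) = 1 := by
    unfold ex
    rw [Finset.sum_const, card_univ, nsmul_eq_mul, mul_one]
    refine div_self ?_
    exact_mod_cast Fintype.card_ne_zero
  rw [h2, mul_one] at h1
  rw [← h1]
  refine Gain.ex_mono fun l => ?_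
  by_cases h : arc adj l k x y
  · rw [if_pos h, if_pos h.2.2.2.1, one_mul]
  · rw [if_neg h]
    split_ifs <;> norm_num

end Cover4

theorem cover4 {V : Type} [Fintype V] (adj : V → V → Prop) (hsym : ∀ x y, adj x y → adj y x)
    (hirr : ∀ x, ¬ adj x x) (Δ H K m m' : ℕ) (hΔ : 0 < Δ) (hH : 0 < H) (hm0 : 0 < m)
    (hdeg : ∀ v, (nb adj v).card ≤ Δ) (hm : 3 * m * H ≤ 4 * m' * K)
    (U : Finset (Sym2 V)) (D a δ : ℝ) (hD : 0 < D) (ha : 0 ≤ a) (hδ : 0 ≤ δ)
    (hU : Good (test adj K (H * Δ)) Δ D a δ U)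
    (idx idx' : V → ℕ) (hidx : Function.Injective idx)
    (hidx' : ∀ u v, idx' u < idx' v ↔ idx v < idx u)
    (Q : Fin (2 * m + m') → ℕ)
    (hQ : ∀ t, Q t = ⌊min (((t : ℕ) + 1 : ℝ) / m) 2 * D + 2 * a⌋₊ + 1)
    {x y : V} (hxy : adj x y) (hxU : s(x, y) ∈ U) :
    (1 - 2 / (H : ℝ)) * (3 * m / Δ) - 4 * m * a / D * (2 * K / ((H : ℝ) * Δ)) -
        2 * (2 * m + m') * (2 * (K + 1) * δ) ≤ ∑ t,
      (pr (fun l : V → Fin K → Fin (H * Δ) =>
          (x, y) ∈ used4 adj l U idx (Q t) ∨ (y, x) ∈ used4 adj l U idx (Q t)) +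
        pr (fun l : V → Fin K → Fin (H * Δ) =>
          (x, y) ∈ used4 adj l U idx' (Q t) ∨ (y, x) ∈ used4 adj l U idx' (Q t))) := by
  have hgain := gain4 adj hsym Δ H K m m' hΔ hH hdeg hm hxy
  set bad : (V → Fin K → Fin (H * Δ)) → Prop := fun l =>
    ∃ i ∈ ({x, y} : Finset V) ×ˢ (univ : Finset (Fin (K + 1))),
        D / Δ * ((test adj K (H * Δ) (i.1, some i.2) l).card : ℝ) + a <
          ((test adj K (H * Δ) (i.1, some i.2) l ∩ U).card : ℝ) with hbad
  have hprbad : pr bad ≤ 2 * (K + 1) * δ := by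
    have h1 := Pool.Agent.SEC.Phase.pr_exists_le
      (({x, y} : Finset V) ×ˢ (univ : Finset (Fin (K + 1))))
      (fun i (l : V → Fin K → Fin (H * Δ)) =>
        D / Δ * ((test adj K (H * Δ) (i.1, some i.2) l).card : ℝ) + a <
          ((test adj K (H * Δ) (i.1, some i.2) l ∩ U).card : ℝ))
    refine h1.trans ?_
    refine (Finset.sum_le_card_nsmul _ _ δ (fun i _ => ?_)).trans ?_
    · refine le_trans (Pool.Agent.SEC.Phase.pr_mono fun l hl => ?_) (hU (i.1, some i.2))
      refine lt_of_lt_of_eq hl ?_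
      refine congrArg (fun s : Finset (Sym2 V) => (s.card : ℝ)) ?_
      ext e
      simp only [mem_inter]
    rw [nsmul_eq_mul]
    apply mul_le_mul_of_nonneg_right _ hδ
    rw [card_product, card_univ, Fintype.card_fin]
    push_cast
    apply mul_le_mul_of_nonneg_right _ (by positivity)
    exact_mod_cast (Finset.card_le_two : ({x, y} : Finset V).card ≤ 2)
  have hN : 0 < H * Δ := Nat.mul_pos hH hΔ
  set n : ℝ := (Fintype.card (V → Fin K → Fin (H * Δ)) : ℝ) with hn
  have hn0 : 0 ≤ n := by positivity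
  have hLgen : ∀ p : (V → Fin K → Fin (H * Δ)) → ℕ → V → V → ℝ, ∑ k ∈ range K,
      (ex (fun l : V → Fin K → Fin (H * Δ) => if arc adj l k x y then p l k x y else 0) +
        ex (fun l : V → Fin K → Fin (H * Δ) => if arc adj l k y x then p l k y x else 0)) =
      (∑ l : V → Fin K → Fin (H * Δ), ∑ k ∈ range K,
        ((if arc adj l k x y then p l k x y else 0) +
        (if arc adj l k y x then p l k y x else 0))) / n := by
    intro p
    rw [Finset.sum_comm, Finset.sum_div]
    apply Finset.sum_congr rfl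
    intro k _
    unfold ex
    rw [← add_div, ← Finset.sum_add_distrib]
  have hR : ∑ t, (pr (fun l : V → Fin K → Fin (H * Δ) =>
        (x, y) ∈ used4 adj l U idx (Q t) ∨ (y, x) ∈ used4 adj l U idx (Q t)) +
        pr (fun l : V → Fin K → Fin (H * Δ) =>
          (x, y) ∈ used4 adj l U idx' (Q t) ∨ (y, x) ∈ used4 adj l U idx' (Q t))) =
      (∑ l : V → Fin K → Fin (H * Δ), ∑ t,
        (Pool.Agent.SEC.Tail.ind
          ((x, y) ∈ used4 adj l U idx (Q t) ∨ (y, x) ∈ used4 adj l U idx (Q t)) +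
        Pool.Agent.SEC.Tail.ind
          ((x, y) ∈ used4 adj l U idx' (Q t) ∨ (y, x) ∈ used4 adj l U idx' (Q t)))) / n := by
    rw [Finset.sum_comm, Finset.sum_div]
    apply Finset.sum_congr rfl
    intro t _
    rw [Pool.Agent.SEC.Tail.pr_eq_sum, Pool.Agent.SEC.Tail.pr_eq_sum, ← add_div,
      ← Finset.sum_add_distrib]
  have hB : pr bad = (∑ l : V → Fin K → Fin (H * Δ), Pool.Agent.SEC.Tail.ind (bad l)) / n := by
    rw [Pool.Agent.SEC.Tail.pr_eq_sum]
  have hmain : (∑ l : V → Fin K → Fin (H * Δ), ∑ k ∈ range K,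
        ((if arc adj l k x y then Cover4.pay adj Δ m m' l k x y else 0) +
        (if arc adj l k y x then Cover4.pay adj Δ m m' l k y x else 0))) / n -
      4 * m * a / D * ((∑ l : V → Fin K → Fin (H * Δ), ∑ k ∈ range K,
        ((if arc adj l k x y then (1 : ℝ) else 0) +
        (if arc adj l k y x then (1 : ℝ) else 0))) / n) -
      2 * (2 * m + m') * pr bad ≤
      (∑ l : V → Fin K → Fin (H * Δ), ∑ t,
        (Pool.Agent.SEC.Tail.ind
          ((x, y) ∈ used4 adj l U idx (Q t) ∨ (y, x) ∈ used4 adj l U idx (Q t)) +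
        Pool.Agent.SEC.Tail.ind
          ((x, y) ∈ used4 adj l U idx' (Q t) ∨ (y, x) ∈ used4 adj l U idx' (Q t)))) / n := by
    rw [hB, ← mul_div_assoc, ← mul_div_assoc, ← sub_div, ← sub_div]
    apply div_le_div_of_nonneg_right _ hn0
    rw [Finset.mul_sum, Finset.mul_sum, ← Finset.sum_sub_distrib, ← Finset.sum_sub_distrib]
    apply Finset.sum_le_sum
    intro l _
    exact Cover4.ptw adj hsym hirr Δ K (H * Δ) m m' hΔ hm0 hdeg U D a hD ha idx idx' hidx' Q hQ l
      hxy hxU
  rw [hR]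
  have e1 := hLgen (fun l k u v => Cover4.pay adj Δ m m' l k u v)
  have e2 := hLgen (fun _ _ _ _ => (1 : ℝ))
  have hgain' : (1 - 2 / (H : ℝ)) * (3 * m / Δ) ≤
      (∑ l : V → Fin K → Fin (H * Δ), ∑ k ∈ range K,
        ((if arc adj l k x y then Cover4.pay adj Δ m m' l k x y else 0) +
        (if arc adj l k y x then Cover4.pay adj Δ m m' l k y x else 0))) / n := by
    rw [← e1]
    exact hgain
  have h5 : 2 * (2 * (m : ℝ) + m') * pr bad ≤ 2 * (2 * m + m') * (2 * (K + 1) * δ) :=
    mul_le_mul_of_nonneg_left hprbad (by positivity)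
  have h6 : (∑ l : V → Fin K → Fin (H * Δ), ∑ k ∈ range K,
        ((if arc adj l k x y then (1 : ℝ) else 0) +
        (if arc adj l k y x then (1 : ℝ) else 0))) / n ≤ 2 * K / ((H : ℝ) * Δ) := by
    rw [← e2]
    have h7 : ∀ k ∈ range K,
        (ex (fun l : V → Fin K → Fin (H * Δ) => if arc adj l k x y then (1 : ℝ) else 0) +
        ex (fun l : V → Fin K → Fin (H * Δ) => if arc adj l k y x then (1 : ℝ) else 0)) ≤
        2 / ((H : ℝ) * Δ) := by
      intro k hk
      rw [mem_range] at hk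
      have h8 := Cover4.ex_arc_le adj hN k hk x y
      have h9 := Cover4.ex_arc_le adj hN k hk y x
      push_cast at h8 h9
      have h10 : 2 / ((H : ℝ) * Δ) = 1 / ((H : ℝ) * Δ) + 1 / ((H : ℝ) * Δ) := by ring
      rw [h10]
      exact add_le_add h8 h9
    refine (Finset.sum_le_sum h7).trans (le_of_eq ?_)
    rw [Finset.sum_const, card_range, nsmul_eq_mul]
    ring
  have h7 : 4 * m * a / D * ((∑ l : V → Fin K → Fin (H * Δ), ∑ k ∈ range K,
        ((if arc adj l k x y then (1 : ℝ) else 0) +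
        (if arc adj l k y x then (1 : ℝ) else 0))) / n) ≤
      4 * m * a / D * (2 * K / ((H : ℝ) * Δ)) :=
    mul_le_mul_of_nonneg_left h6 (by positivity)
  linarith

end Pool.Agent.SG4
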