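import Pool.Agent.Helper66.SG.Defs

/-!
# Strong edge colouring of general graphs, constant 4/3: definitions

Same process as in `Pool.Agent.SG` (`alive`, `arc`, `hd`, `test`, `dl`, `ord`), but an arc `(z, y)`
is used if it has less than `Q` obstructions: heads in `N(z)`, heads in `N(y)`, and the heads of the
star of `z` with smaller index.
-/

set_option autoImplicit false

namespace Pool.Agent.SG4

open Finset Pool.Agent.SEC Pool.Agent.SG
open scoped Classical

variable {V : Type} [Fintype V]

/-- the number of heads of arcs of `z` with edge in `U` and with smaller index than `y` -/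
noncomputable def psn (adj : V → V → Prop) {K N : ℕ} (l : V → Fin K → Fin N)
    (U : Finset (Sym2 V)) (idx : V → ℕ) (z y : V) : ℕ :=
  (univ.filter (fun y' => s(z, y') ∈ U ∧ (∃ k < K, arc adj l k z y') ∧ idx y' < idx y)).card

/-- the arcs which are used: those with less than `Q` obstructions -/
noncomputable def used4 (adj : V → V → Prop) {K N : ℕ} (l : V → Fin K → Fin N)
    (U : Finset (Sym2 V)) (idx : V → ℕ) (Q : ℕ) : Finset (V × V) :=
  univ.filter (fun a => s(a.1, a.2) ∈ U ∧ ∃ k < K, arc adj l k a.1 a.2 ∧
    (hd adj l k a.1 ∩ U).card + psn adj l U idx a.1 a.2 + (hd adj l k a.2 ∩ U).card < Q)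

/-- for a head `y` of a used arc `(z, y)`: the heads `y'` of used arcs which are coloured before `y`
and are in conflict with it: those of smaller level adjacent to `z` or `y`, and those with the same
tail and smaller index -/
noncomputable def back4 (adj : V → V → Prop) {K N : ℕ} (l : V → Fin K → Fin N)
    (U : Finset (Sym2 V)) (idx : V → ℕ) (Q : ℕ) (y : V) : Finset V :=
  univ.filter (fun y' => ∃ z z', (z, y) ∈ used4 adj l U idx Q ∧ (z', y') ∈ used4 adj l U idx Q ∧
    ((dl adj l y' < dl adj l y ∧ (adj z y' ∨ adj y y')) ∨ (z' = z ∧ idx y' < idx y)))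

/-- the colour of a head -/
noncomputable def colr4 (adj : V → V → Prop) {K N P : ℕ} (U : Finset (Sym2 V)) (Q : ℕ)
    (idx : V → ℕ) (l : V → Fin K → Fin N) (π : V → Equiv.Perm (Fin P)) (y : V) :
    Option (Fin P) :=
  gcol (ord adj l idx) (back4 adj l U idx Q) π y

/-- one random induced matching, contained in `U` -/
noncomputable def cls4 (adj : V → V → Prop) {K N P : ℕ} (U : Finset (Sym2 V)) (Q : ℕ)
    (idx : V → ℕ) (c₀ : Fin P) (ω : V → (Fin K → Fin N) × Equiv.Perm (Fin P)) :
    Finset (Sym2 V) :=
  ((used4 adj (fun v => (ω v).1) U idx Q).filter (fun a =>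
    colr4 adj U Q idx (fun v => (ω v).1) (fun v => (ω v).2) a.2 = some c₀ ∧
    ∀ z' y', adj a.2 y' → z' ≠ a.1 → (z', y') ∈ used4 adj (fun v => (ω v).1) U idx Q →
      dl adj (fun v => (ω v).1) y' = dl adj (fun v => (ω v).1) a.2 →
      colr4 adj U Q idx (fun v => (ω v).1) (fun v => (ω v).2) y' ≠ some c₀)).image
    (fun a => s(a.1, a.2))

end Pool.Agent.SG4
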