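import Pool.Agent.Helper66.SG4.Defs
import Pool.Agent.Helper66.SG.Process
import Pool.Agent.Helper66.SG.Gain

set_option autoImplicit false

namespace Pool.Agent.SG4

open Finset Pool.Agent.SEC Pool.Agent.SG
open scoped Classical

/-! ### M4: the gain of the process -/

theorem gain4 {V : Type} [Fintype V] (adj : V → V → Prop) (hsym : ∀ x y, adj x y → adj y x)
    (Δ H K m m' : ℕ) (hΔ : 0 < Δ) (hH : 0 < H)
    (hdeg : ∀ v, (nb adj v).card ≤ Δ) (hm : 3 * m * H ≤ 4 * m' * K) {x y : V} (hxy : adj x y) :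
    (1 - 2 / (H : ℝ)) * (3 * m / Δ) ≤ ∑ k ∈ range K,
      (ex (fun l : V → Fin K → Fin (H * Δ) => if arc adj l k x y then
          (m * (3 - (hd adj l k x).card / Δ - 2 * ((hd adj l k y).card / Δ)) + 2 * m' : ℝ)
            else 0) +
        ex (fun l : V → Fin K → Fin (H * Δ) => if arc adj l k y x then
          (m * (3 - (hd adj l k y).card / Δ - 2 * ((hd adj l k x).card / Δ)) + 2 * m' : ℝ)
            else 0)) := by
  have hN : 0 < H * Δ := Nat.mul_pos hH hΔ
  have hΔ' : (0 : ℝ) < Δ := by exact_mod_cast hΔ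
  have hH' : (0 : ℝ) < H := by exact_mod_cast hH
  -- bounds for the number of heads
  have hh : ∀ (l : V → Fin K → Fin (H * Δ)) (k : ℕ) (v : V), ((hd adj l k v).card : ℝ) ≤ Δ := by
    intro l k v
    have h1 := card_alive_add_hd adj l hsym k v
    have h2 := hdeg v
    have h3 : (hd adj l k v).card ≤ Δ := by omega
    exact_mod_cast h3
  have hf0 : ∀ (u v : V) (k : ℕ) (l : V → Fin K → Fin (H * Δ)),
      (0 : ℝ) ≤ m * (3 - (hd adj l k u).card / Δ - 2 * ((hd adj l k v).card / Δ)) + 2 * m' := by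
    intro u v k l
    have h1 : ((hd adj l k v).card : ℝ) / Δ ≤ 1 := by
      rw [div_le_one hΔ']
      exact hh l k v
    have h1' : ((hd adj l k u).card : ℝ) / Δ ≤ 1 := by
      rw [div_le_one hΔ']
      exact hh l k u
    have h2 : (0 : ℝ) ≤ m * (3 - (hd adj l k u).card / Δ - 2 * ((hd adj l k v).card / Δ)) :=
      mul_nonneg (by positivity) (by linarith)
    positivity
  have hflow : ∀ (u v : V) (k : ℕ), Gain.Low k (fun l : V → Fin K → Fin (H * Δ) =>
      (m * (3 - (hd adj l k u).card / Δ - 2 * ((hd adj l k v).card / Δ)) + 2 * m' : ℝ)) := by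
    intro u v k l l' h
    simp only
    rw [Gain.hd_congr adj h v, Gain.hd_congr adj h u]
  have hT0 : ∀ k ∈ range K, (0 : ℝ) ≤
      (ex (fun l : V → Fin K → Fin (H * Δ) => if arc adj l k x y then
          (m * (3 - (hd adj l k x).card / Δ - 2 * ((hd adj l k y).card / Δ)) + 2 * m' : ℝ)
            else 0) +
        ex (fun l : V → Fin K → Fin (H * Δ) => if arc adj l k y x then
          (m * (3 - (hd adj l k y).card / Δ - 2 * ((hd adj l k x).card / Δ)) + 2 * m' : ℝ)
            else 0)) := by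
    intro k _
    apply add_nonneg
    · apply Gain.ex_nonneg
      intro l
      split_ifs
      · exact hf0 x y k l
      · exact le_rfl
    · apply Gain.ex_nonneg
      intro l
      split_ifs
      · exact hf0 y x k l
      · exact le_rfl
  rcases lt_or_ge (1 - 2 / (H : ℝ)) 0 with hneg | hpos
  · refine le_trans ?_ (sum_nonneg hT0)
    exact mul_nonpos_of_nonpos_of_nonneg hneg.le (by positivity)
  set F : ℕ → ℝ := fun k => ex (Gain.FF adj x y k : (V → Fin K → Fin (H * Δ)) → ℝ) with hF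
  have hFK : ∀ k ≤ K, F K ≤ F k := fun k hk =>
    Gain.ex_mono fun l => Gain.FF_anti adj x y hk l
  have hF0 : F 0 = 1 := by
    have : Nonempty (Fin (H * Δ)) := ⟨⟨0, hN⟩⟩
    have hcard : (0 : ℝ) < Fintype.card (V → Fin K → Fin (H * Δ)) := by
      exact_mod_cast Fintype.card_pos
    simp only [hF, ex, Gain.FF, alive, and_self, if_true, sum_const, card_univ, nsmul_eq_mul,
      mul_one]
    exact div_self hcard.ne'
  have hFKn : 0 ≤ F K := Gain.ex_nonneg fun l => Gain.FF_nonneg adj x y K l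
  have hN' : (0 : ℝ) < ((H * Δ : ℕ) : ℝ) := by exact_mod_cast hN
  have hNe : ((H * Δ : ℕ) : ℝ) = H * Δ := by push_cast; ring
  have hstep : ∀ k ∈ range K, (1 - 2 / (H : ℝ)) * ((3 * m / Δ) * (F k - F (k + 1)) +
      4 * m' / (H * Δ) * F K) ≤
      (ex (fun l : V → Fin K → Fin (H * Δ) => if arc adj l k x y then
          (m * (3 - (hd adj l k x).card / Δ - 2 * ((hd adj l k y).card / Δ)) + 2 * m' : ℝ)
            else 0) +
        ex (fun l : V → Fin K → Fin (H * Δ) => if arc adj l k y x then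
          (m * (3 - (hd adj l k y).card / Δ - 2 * ((hd adj l k x).card / Δ)) + 2 * m' : ℝ)
            else 0)) := by
    intro k hk
    rw [mem_range] at hk
    have hA := Gain.step_A adj hsym Δ hN hdeg hxy (⟨k, hk⟩ : Fin K)
    have hB1 := Gain.step_B adj Δ hN hdeg hxy (⟨k, hk⟩ : Fin K) _ (hf0 x y k) (hflow x y k)
    have hB2 := Gain.step_B adj Δ hN hdeg (hsym _ _ hxy) (⟨k, hk⟩ : Fin K) _ (hf0 y x k)
      (hflow y x k)
    simp only at hA hB1 hB2
    have hcomm : (fun l : V → Fin K → Fin (H * Δ) => Gain.FF adj y x k l *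
        (m * (3 - (hd adj l k y).card / Δ - 2 * ((hd adj l k x).card / Δ)) + 2 * m' : ℝ)) =
        (fun l : V → Fin K → Fin (H * Δ) => Gain.FF adj x y k l *
        (m * (3 - (hd adj l k y).card / Δ - 2 * ((hd adj l k x).card / Δ)) + 2 * m' : ℝ)) := by
      funext l
      rw [Gain.FF_comm]
    rw [hcomm] at hB2
    refine le_trans ?_ (add_le_add hB1 hB2)
    rw [← mul_add, ← Gain.ex_add]
    have e1 : (fun l : V → Fin K → Fin (H * Δ) => Gain.FF adj x y k l *
        (m * (3 - (hd adj l k x).card / Δ - 2 * ((hd adj l k y).card / Δ)) + 2 * m' : ℝ) +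
        Gain.FF adj x y k l *
        (m * (3 - (hd adj l k y).card / Δ - 2 * ((hd adj l k x).card / Δ)) + 2 * m' : ℝ)) =
        (fun l : V → Fin K → Fin (H * Δ) => (3 * m / Δ : ℝ) * (Gain.FF adj x y k l *
        (((Δ : ℝ) - (hd adj l k x).card) + ((Δ : ℝ) - (hd adj l k y).card))) +
          (4 * m' : ℝ) * Gain.FF adj x y k l) := by
      funext l
      field_simp
      ring
    rw [e1, Gain.ex_add, Gain.ex_mul, Gain.ex_mul]
    set X := ex (fun l : V → Fin K → Fin (H * Δ) => Gain.FF adj x y k l *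
        (((Δ : ℝ) - (hd adj l k x).card) + ((Δ : ℝ) - (hd adj l k y).card))) with hX
    have e2 : ex (fun l : V → Fin K → Fin (H * Δ) => Gain.FF adj x y k l) = F k := rfl
    rw [e2]
    have e3 : (1 / ((H * Δ : ℕ) : ℝ)) * (1 - 2 * Δ / ((H * Δ : ℕ) : ℝ)) *
        ((3 * m / Δ : ℝ) * X + 4 * m' * F k) =
        (1 - 2 / (H : ℝ)) * ((3 * m / Δ) * (1 / ((H * Δ : ℕ) : ℝ) * X) +
          4 * m' / (H * Δ) * F k) := by
      rw [hNe]
      field_simp
    rw [e3]
    apply mul_le_mul_of_nonneg_left _ hpos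
    have e4 : (F k - F (k + 1)) ≤ 1 / ((H * Δ : ℕ) : ℝ) * X := hA
    have e5 := hFK k hk.le
    apply add_le_add
    · exact mul_le_mul_of_nonneg_left e4 (by positivity)
    · exact mul_le_mul_of_nonneg_left e5 (by positivity)
  refine le_trans ?_ (sum_le_sum hstep)
  rw [← mul_sum, sum_add_distrib, ← mul_sum, sum_range_sub', sum_const, card_range,
    nsmul_eq_mul, hF0]
  apply mul_le_mul_of_nonneg_left _ hpos
  have h1 : (3 * m : ℝ) / Δ ≤ K * (4 * m' / (H * Δ)) := by
    have h2 : (3 * m : ℝ) * H ≤ 4 * m' * K := by exact_mod_cast hm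
    rw [div_le_iff₀ hΔ']
    have h3 : (K : ℝ) * (4 * m' / (H * Δ)) * Δ = (4 * m' * K) / H := by
      field_simp
    rw [h3, le_div_iff₀ hH']
    exact h2
  have h4 : (3 * m : ℝ) / Δ * F K ≤ (K * (4 * m' / (H * Δ))) * F K :=
    mul_le_mul_of_nonneg_right h1 hFKn
  linarith

end Pool.Agent.SG4
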