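import Pool.Agent.Helper66.SG4.Cover
import Pool.Agent.Helper66.SG4.ClsCov
import Pool.Agent.Helper66.SG4.ClsPair
import Pool.Agent.Helper66.SG4.ClsLoc

set_option autoImplicit false

namespace Pool.Agent.SG4

open Finset Pool.Agent.SEC Pool.Agent.SG
open scoped Classical

/-! ### M12: the family -/

/-- the two orders -/
noncomputable def SFam_idx (V : Type) [Fintype V] : Bool → V → ℕ
  | true => fun v => (Fintype.equivFin V v : ℕ)
  | false => fun v => Fintype.card V - 1 - (Fintype.equivFin V v : ℕ)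

theorem SFam_idx_inj (V : Type) [Fintype V] (b : Bool) : Function.Injective (SFam_idx V b) := by
  intro u v h
  have hu := (Fintype.equivFin V u).2
  have hv := (Fintype.equivFin V v).2
  cases b
  · simp only [SFam_idx] at h
    exact (Fintype.equivFin V).injective (Fin.ext (by omega))
  · simp only [SFam_idx] at h
    exact (Fintype.equivFin V).injective (Fin.ext h)

theorem SFam_idx_lt (V : Type) [Fintype V] (b : Bool) (v : V) :
    SFam_idx V b v < Fintype.card V := by
  have hv := (Fintype.equivFin V v).2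
  cases b
  · simp only [SFam_idx]
    omega
  · exact hv

theorem SFam_idx_rev (V : Type) [Fintype V] (u v : V) :
    SFam_idx V false u < SFam_idx V false v ↔ SFam_idx V true v < SFam_idx V true u := by
  have hu := (Fintype.equivFin V u).2
  have hv := (Fintype.equivFin V v).2
  simp only [SFam_idx]
  omega

theorem scheme_fam4 {V : Type} [Fintype V] (adj : V → V → Prop) (hsym : ∀ x y, adj x y → adj y x)
    (hirr : ∀ x, ¬ adj x x) (Δ H K m m' g : ℕ) (hΔ : 0 < Δ) (hH : 0 < H) (hm0 : 0 < m)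
    (hg : 0 < g) (hdeg : ∀ v, (nb adj v).card ≤ Δ) (hm : 3 * m * H ≤ 4 * m' * K)
    (U : Finset (Sym2 V)) (hUe : ∀ x y, s(x, y) ∈ U → adj x y)
    (D a δ : ℝ) (hD : 0 < D) (ha : 0 ≤ a) (hδ : 0 ≤ δ)
    (hU : Good (test adj K (H * Δ)) Δ D a δ U)
    (Q : Fin (2 * m + m') → ℕ)
    (hQ : ∀ t, Q t = ⌊min (((t : ℕ) + 1 : ℝ) / m) 2 * D + 2 * a⌋₊ + 1) :
    Nonempty (Fam (Conf adj) (eball adj (6 * K + 12)) U
      ((1 - 2 / (H : ℝ)) * (3 * m / Δ) - 4 * m * a / D * (2 * K / ((H : ℝ) * Δ)) -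
        2 * (2 * m + m') * (2 * (K + 1) * δ) -
        2 * (2 * m + m') * (2 * K * (Δ : ℝ) ^ 2 / (((H * Δ : ℕ) : ℝ) ^ 2 * g)))
      (4 * ((K : ℝ) / ((H * Δ : ℕ) : ℝ)) ^ 2 * m / D)
      (Bool × (Σ t : Fin (2 * m + m'), Fin (Q t + g)))) := by
  have hN : 0 < H * Δ := Nat.mul_pos hH hΔ
  haveI : Nonempty (Fin (H * Δ)) := ⟨⟨0, hN⟩⟩
  refine ⟨⟨fun j => (Fin K → Fin (H * Δ)) × Equiv.Perm (Fin (Q j.2.1 + g)),
    fun j => inferInstance, fun j => inferInstance,
    fun j ω => cls4 adj U (Q j.2.1) (SFam_idx V j.1) j.2.2 ω, ?_, ?_, ?_, ?_⟩⟩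
  · rintro ⟨b, t, c⟩ ω e he e' he' hne
    exact cls4_ind adj hsym hirr (SFam_idx V b) (SFam_idx_inj V b) (SFam_idx_lt V b) U (Q t) c
      (by omega) ω e e' he he' hne
  · rintro ⟨b, t, c⟩ e ω ω' h
    exact cls4_loc adj hsym hirr (SFam_idx V b) (SFam_idx_inj V b) (SFam_idx_lt V b) U (Q t)
      K (H * Δ) (Q t + g) c e ω ω' h
  · intro e he
    induction e using Sym2.ind with
    | _ x y =>
    have hxy : adj x y := hUe x y he
    have hcov := cover4 adj hsym hirr Δ H K m m' hΔ hH hm0 hdeg hm U D a δ hD ha hδ hU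
      (SFam_idx V true) (SFam_idx V false) (SFam_idx_inj V true) (SFam_idx_rev V) Q hQ hxy he
    set los : ℝ := 2 * K * (Δ : ℝ) ^ 2 / (((H * Δ : ℕ) : ℝ) ^ 2 * g) with hlos
    have hone : ∀ (b : Bool) (t : Fin (2 * m + m')),
        pr (fun l : V → Fin K → Fin (H * Δ) =>
          (x, y) ∈ used4 adj l U (SFam_idx V b) (Q t) ∨
            (y, x) ∈ used4 adj l U (SFam_idx V b) (Q t)) - los ≤
        ∑ c : Fin (Q t + g), pr (fun ω : V → (Fin K → Fin (H * Δ)) × Equiv.Perm (Fin (Q t + g)) =>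
          s(x, y) ∈ cls4 adj U (Q t) (SFam_idx V b) c ω) := by
      intro b t
      have hP : (0 : ℝ) < ((Q t + g : ℕ) : ℝ) := by
        have : 0 < Q t + g := by omega
        exact_mod_cast this
      set r := pr (fun l : V → Fin K → Fin (H * Δ) =>
          (x, y) ∈ used4 adj l U (SFam_idx V b) (Q t) ∨
            (y, x) ∈ used4 adj l U (SFam_idx V b) (Q t)) with hr
      have h1 : ∀ c : Fin (Q t + g), (r - los) / ((Q t + g : ℕ) : ℝ) ≤
          pr (fun ω : V → (Fin K → Fin (H * Δ)) × Equiv.Perm (Fin (Q t + g)) =>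
            s(x, y) ∈ cls4 adj U (Q t) (SFam_idx V b) c ω) := by
        intro c
        rw [div_le_iff₀ hP, mul_comm (pr _)]
        exact cls4_cov adj hsym hirr (SFam_idx V b) (SFam_idx_inj V b) (SFam_idx_lt V b) U (Q t) g
          hg Δ K (H * Δ) (Q t + g) hN c rfl hdeg hxy
      refine le_trans (le_of_eq ?_) (Finset.sum_le_sum (fun c _ => h1 c))
      rw [Finset.sum_const, card_univ, Fintype.card_fin, nsmul_eq_mul]
      field_simp
    have htot : ∑ j : Bool × (Σ t : Fin (2 * m + m'), Fin (Q t + g)),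
        pr (fun ω : V → (Fin K → Fin (H * Δ)) × Equiv.Perm (Fin (Q j.2.1 + g)) =>
          s(x, y) ∈ cls4 adj U (Q j.2.1) (SFam_idx V j.1) j.2.2 ω) =
        ∑ t : Fin (2 * m + m'), ∑ c : Fin (Q t + g),
          pr (fun ω : V → (Fin K → Fin (H * Δ)) × Equiv.Perm (Fin (Q t + g)) =>
            s(x, y) ∈ cls4 adj U (Q t) (SFam_idx V true) c ω) +
        ∑ t : Fin (2 * m + m'), ∑ c : Fin (Q t + g),
          pr (fun ω : V → (Fin K → Fin (H * Δ)) × Equiv.Perm (Fin (Q t + g)) =>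
            s(x, y) ∈ cls4 adj U (Q t) (SFam_idx V false) c ω) := by
      rw [Fintype.sum_prod_type, Fintype.sum_bool, Fintype.sum_sigma, Fintype.sum_sigma]
    rw [htot]
    have h2 := Finset.sum_le_sum (s := (univ : Finset (Fin (2 * m + m'))))
      (fun t _ => hone true t)
    have h3 := Finset.sum_le_sum (s := (univ : Finset (Fin (2 * m + m'))))
      (fun t _ => hone false t)
    rw [Finset.sum_sub_distrib, Finset.sum_const, card_univ, Fintype.card_fin,
      nsmul_eq_mul] at h2 h3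
    rw [Finset.sum_add_distrib] at hcov
    push_cast at h2 h3
    linarith
  · rintro e - e' - hne ⟨b, t, c⟩
    refine (cls4_pair adj hsym hirr (SFam_idx V b) (SFam_idx_inj V b) (SFam_idx_lt V b) U (Q t)
      K (H * Δ) (Q t + g) hN c (by omega) e e' hne).trans ?_
    have hm1 : (1 : ℝ) ≤ m := by exact_mod_cast hm0
    have hP : D / m ≤ ((Q t + g : ℕ) : ℝ) := by
      have h1 : min (((t : ℕ) + 1 : ℝ) / m) 2 * D + 2 * a < (Q t : ℝ) := by
        rw [hQ t]
        push_cast
        exact Nat.lt_floor_add_one _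
      have h2 : 1 / (m : ℝ) ≤ min (((t : ℕ) + 1 : ℝ) / m) 2 := by
        refine le_min ?_ ?_
        · refine div_le_div_of_nonneg_right ?_ (by linarith)
          have : (0 : ℝ) ≤ (t : ℕ) := Nat.cast_nonneg _
          linarith
        · rw [div_le_iff₀ (by linarith)]
          linarith
      have h3 : 1 / (m : ℝ) * D ≤ min (((t : ℕ) + 1 : ℝ) / m) 2 * D :=
        mul_le_mul_of_nonneg_right h2 hD.le
      have h4 : (0 : ℝ) ≤ g := Nat.cast_nonneg _
      push_cast
      have h5 : D / m = 1 / (m : ℝ) * D := by ring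
      linarith
    have hDm : 0 < D / m := div_pos hD (by linarith)
    have h6 : 4 * ((K : ℝ) / ((H * Δ : ℕ) : ℝ)) ^ 2 * m / D =
        4 * ((K : ℝ) / ((H * Δ : ℕ) : ℝ)) ^ 2 / (D / m) := by
      have : (m : ℝ) ≠ 0 := by linarith
      field_simp
    rw [h6]
    exact div_le_div_of_nonneg_left (by positivity) hDm hP

end Pool.Agent.SG4
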