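import Pool.Agent.Helper66.SG.Defs

set_option autoImplicit false

namespace Pool.Agent.SG4

open Finset Pool.Agent.SEC Pool.Agent.SG
open scoped Classical

/-! ### M13: the numbers of the family -/

namespace SNumAux

theorem sum_min (m : ℕ) (hm : 0 < m) (u D : ℝ) (hD : 0 ≤ D) :
    (∑ t : Fin (2 * m + 1), (min (((t : ℕ) + 1 : ℝ) / m) 2 * D + u)) ≤
      (2 * m + 1) * u + (2 * (m : ℝ) + 3) * D := by
  have hm0 : (0 : ℝ) < (m : ℝ) := by exact_mod_cast hm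
  rw [Fin.sum_univ_eq_sum_range (fun t : ℕ => min (((t : ℕ) + 1 : ℝ) / m) 2 * D + u) (2 * m + 1),
    sum_range_succ]
  have h1 : ∑ t ∈ range (2 * m), (min (((t : ℕ) + 1 : ℝ) / m) 2 * D + u) ≤
      ∑ t ∈ range (2 * m), (((t : ℝ) + 1) / m * D + u) := by
    apply sum_le_sum
    intro t _
    have := mul_le_mul_of_nonneg_right (min_le_left (((t : ℕ) + 1 : ℝ) / m) 2) hD
    linarith
  have h2 : ∑ t ∈ range (2 * m), (((t : ℝ) + 1) / m * D + u) =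
      2 * m * u + (2 * (m : ℝ) + 1) * D := by
    have h3 : ∀ k : ℕ, ∑ t ∈ range k, (((t : ℝ) + 1) / m * D + u) =
        k * u + ((k : ℝ) * ((k : ℝ) + 1) / (2 * m)) * D := by
      intro k
      induction k with
      | zero => simp
      | succ k ih =>
        rw [sum_range_succ, ih]
        push_cast
        field_simp
        ring
    rw [h3]
    push_cast
    field_simp
  have h4 : min ((((2 * m : ℕ) : ℝ) + 1 : ℝ) / m) 2 * D ≤ 2 * D :=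
    mul_le_mul_of_nonneg_right (min_le_right _ _) hD
  linarith

theorem final (ε' : ℝ) (hε' : 0 < ε') (n : ℕ) (hn0 : 0 < n) (hn : 1 ≤ ε' * n)
    (D a g Δ p : ℝ) (hDpos : 0 < D) (ha0 : 0 ≤ a) (haD : 24576 * (n : ℝ) ^ 2 * a ≤ D)
    (hD65 : 516 * (n : ℝ) ≤ D) (hg0 : 0 ≤ g) (hg2 : g ≤ D / (32 * n) + 1)
    (hlow : 192 * (n : ℝ) - 4 ≤ p * Δ) :
    2 * (∑ t : Fin (2 * (64 * n) + 1),
      (min (((t : ℕ) + 1 : ℝ) / (64 * n : ℕ)) 2 * D + 2 * a + 1 + g)) ≤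
        (4 / 3 + ε') * D * Δ * p := by
  have hnR : (1 : ℝ) ≤ (n : ℝ) := by exact_mod_cast hn0
  have hs := sum_min (64 * n) (by positivity) (2 * a + 1 + g) D hDpos.le
  have he : ∀ t : Fin (2 * (64 * n) + 1),
      (min (((t : ℕ) + 1 : ℝ) / (64 * n : ℕ)) 2 * D + 2 * a + 1 + g) =
      min (((t : ℕ) + 1 : ℝ) / (64 * n : ℕ)) 2 * D + (2 * a + 1 + g) := by
    intro t; ring
  rw [sum_congr rfl (fun t _ => he t)]
  refine (mul_le_mul_of_nonneg_left hs (by norm_num : (0 : ℝ) ≤ 2)).trans ?_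
  push_cast
  have ha2 : 258 * n * (2 * a) ≤ D := by
    have h1 : 258 * n * (2 * a) ≤ 24576 * (n : ℝ) ^ 2 * a := by
      have h2 : (516 : ℝ) * n ≤ 24576 * (n : ℝ) ^ 2 := by nlinarith
      calc 258 * n * (2 * a) = (516 * n) * a := by ring
        _ ≤ _ := mul_le_mul_of_nonneg_right h2 ha0
    exact h1.trans haD
  have hg3 : 258 * n * g ≤ 258 / 32 * D + D := by
    calc 258 * n * g ≤ 258 * n * (D / (32 * n) + 1) := by gcongr
      _ = 258 / 32 * D + 258 * n := by field_simp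
      _ ≤ _ := by linarith
  have h64 : 2 * (128 * (n : ℝ) + 1) ≤ 258 * n := by linarith
  have h5 : 2 * (128 * (n : ℝ) + 1) * (2 * a + 1 + g) ≤ 258 * n * (2 * a + 1 + g) :=
    mul_le_mul_of_nonneg_right h64 (by positivity)
  have h6 : (4 / 3 + ε') * D * (192 * (n : ℝ) - 4) ≤ (4 / 3 + ε') * D * (p * Δ) :=
    mul_le_mul_of_nonneg_left hlow (by positivity)
  have h7 : 188 * D ≤ ε' * D * (192 * (n : ℝ) - 4) := by
    have h8 : 188 * (ε' * n) ≤ ε' * (192 * (n : ℝ) - 4) := by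
      have : 188 * (n : ℝ) ≤ 192 * n - 4 := by linarith
      calc 188 * (ε' * n) = ε' * (188 * n) := by ring
        _ ≤ _ := mul_le_mul_of_nonneg_left this hε'.le
    have h9 : 188 ≤ ε' * (192 * (n : ℝ) - 4) := by linarith
    calc 188 * D ≤ (ε' * (192 * (n : ℝ) - 4)) * D := mul_le_mul_of_nonneg_right h9 hDpos.le
      _ = _ := by ring
  have hA : 258 * n * (2 * a + 1 + g) ≤ 516 / 32 * D + 3 * D := by
    calc 258 * n * (2 * a + 1 + g) = 258 * n * (2 * a) + 258 * n + 258 * n * g := by ring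
      _ ≤ D + D + (258 / 32 * D + D) := by linarith
      _ ≤ _ := by linarith
  calc 2 * ((2 * (64 * (n : ℝ)) + 1) * (2 * a + 1 + g) + (2 * (64 * (n : ℝ)) + 3) * D)
      = 2 * (128 * (n : ℝ) + 1) * (2 * a + 1 + g) + (256 * (n * D) + 6 * D) := by ring
    _ ≤ 516 / 32 * D + 3 * D + (256 * (n * D) + 6 * D) := by linarith
    _ ≤ 256 * (n * D) - 16 / 3 * D + ε' * D * (192 * (n : ℝ) - 4) := by linarith
    _ = (4 / 3 + ε') * D * (192 * (n : ℝ) - 4) := by ring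
    _ ≤ (4 / 3 + ε') * D * (p * Δ) := h6
    _ = (4 / 3 + ε') * D * Δ * p := by ring

end SNumAux

theorem scheme_numbers4 (ε' : ℝ) (hε' : 0 < ε') : ∃ (m m' H K : ℕ) (η : ℝ) (C Δ₁ : ℕ),
    0 < m ∧ 0 < H ∧ 0 < η ∧ 3 * m * H ≤ 4 * m' * K ∧ 0 < Δ₁ ∧
    ∀ Δ : ℕ, Δ₁ ≤ Δ → ∀ D a δ : ℝ, ε' * Δ ≤ D → D ≤ Δ → 0 ≤ a → a ≤ η * Δ → 0 ≤ δ →
      δ ≤ 1 / (Δ : ℝ) ^ 2 → ∃ (g : ℕ) (p : ℝ), 0 < g ∧
      p = (1 - 2 / (H : ℝ)) * (3 * m / Δ) - 4 * m * a / D * (2 * K / ((H : ℝ) * Δ)) -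
        2 * (2 * m + m') * (2 * (K + 1) * δ) -
        2 * (2 * m + m') * (2 * K * (Δ : ℝ) ^ 2 / (((H * Δ : ℕ) : ℝ) ^ 2 * g)) ∧
      0 < p ∧ p * Δ ≤ C ∧
      4 * ((K : ℝ) / ((H * Δ : ℕ) : ℝ)) ^ 2 * m / D * ((Δ : ℝ) ^ 2 * D) ≤ C ∧
      2 * (∑ t : Fin (2 * m + m'), (min (((t : ℕ) + 1 : ℝ) / m) 2 * D + 2 * a + 1 + g)) ≤
        (4 / 3 + ε') * D * Δ * p := by
  obtain ⟨n, hn⟩ : ∃ n : ℕ, 1 / ε' ≤ n := exists_nat_ge _
  obtain ⟨n, hn0, hn⟩ : ∃ n : ℕ, 0 < n ∧ 1 ≤ ε' * n := by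
    refine ⟨n + 1, Nat.succ_pos n, ?_⟩
    rw [div_le_iff₀ hε'] at hn
    push_cast
    nlinarith
  have hnR : (1 : ℝ) ≤ (n : ℝ) := by exact_mod_cast hn0
  obtain ⟨H, hH⟩ : ∃ H : ℕ, 258 * 96 * 32 * (n : ℝ) ^ 3 / ε' + 384 * n + 1 ≤ H := exists_nat_ge _
  have hq0 : 0 ≤ 258 * 96 * 32 * (n : ℝ) ^ 3 / ε' := by positivity
  have hHR1 : 258 * 96 * 32 * (n : ℝ) ^ 3 / ε' ≤ (H : ℝ) := by linarith
  have hHR2 : 384 * (n : ℝ) ≤ (H : ℝ) := by linarith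
  have hHR : (0 : ℝ) < (H : ℝ) := by linarith
  have hH0 : 0 < H := by exact_mod_cast hHR
  obtain ⟨Δ₁, hΔ₁⟩ : ∃ Δ₁ : ℕ, 516 * (n : ℝ) / ε' + 4 * (128 * n + 1) * (48 * n * H + 1) + 1 ≤ Δ₁ :=
    exists_nat_ge _
  have hq1 : 0 ≤ 516 * (n : ℝ) / ε' := by positivity
  have hq2 : 0 ≤ 4 * (128 * (n : ℝ) + 1) * (48 * n * H + 1) := by positivity
  have hΔ₁R : (0 : ℝ) < (Δ₁ : ℝ) := by linarith
  refine ⟨64 * n, 1, H, 48 * n * H, ε' / (24576 * n ^ 2), 589824 * n ^ 3 + 192 * n, Δ₁,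
    by positivity, hH0, by positivity,
    by rw [show 3 * (64 * n) * H = 4 * 1 * (48 * n * H) by ring],
    by exact_mod_cast hΔ₁R, ?_⟩
  intro Δ hΔ D a δ hD1 hD2 ha0 ha1 hδ0 hδ1
  have hΔR1 : (Δ₁ : ℝ) ≤ (Δ : ℝ) := by exact_mod_cast hΔ
  have hΔR : (0 : ℝ) < (Δ : ℝ) := by linarith
  have hDpos : 0 < D := lt_of_lt_of_le (by positivity) hD1
  have hD65 : 516 * (n : ℝ) ≤ D := by
    have h1 : 516 * (n : ℝ) / ε' ≤ Δ := by linarith
    rw [div_le_iff₀ hε'] at h1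
    linarith
  have haD : 24576 * (n : ℝ) ^ 2 * a ≤ D := by
    calc 24576 * (n : ℝ) ^ 2 * a ≤ 24576 * (n : ℝ) ^ 2 * (ε' / (24576 * n ^ 2) * Δ) :=
          mul_le_mul_of_nonneg_left ha1 (by positivity)
      _ = ε' * Δ := by field_simp
      _ ≤ D := hD1
  obtain ⟨g, hg⟩ : ∃ g : ℕ, g = ⌈D / (32 * n)⌉₊ := ⟨_, rfl⟩
  have hg1 : D / (32 * n) ≤ (g : ℝ) := by rw [hg]; exact Nat.le_ceil _
  have hg2 : (g : ℝ) ≤ D / (32 * n) + 1 := by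
    rw [hg]; exact (Nat.ceil_lt_add_one (by positivity)).le
  have hgR : (0 : ℝ) < (g : ℝ) := lt_of_lt_of_le (by positivity) hg1
  have hg0 : 0 < g := by exact_mod_cast hgR
  obtain ⟨p, hp⟩ : ∃ p : ℝ, p = (1 - 2 / (H : ℝ)) * (3 * (64 * n : ℕ) / Δ) -
      4 * (64 * n : ℕ) * a / D * (2 * (48 * n * H : ℕ) / ((H : ℝ) * Δ)) -
      2 * (2 * (64 * n : ℕ) + (1 : ℕ)) * (2 * ((48 * n * H : ℕ) + 1) * δ) -
        2 * (2 * (64 * n : ℕ) + (1 : ℕ)) *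
          (2 * (48 * n * H : ℕ) * (Δ : ℝ) ^ 2 / (((H * Δ : ℕ) : ℝ) ^ 2 * g)) := ⟨_, rfl⟩
  have hpΔ : p * Δ = (1 - 2 / (H : ℝ)) * (192 * n) - 24576 * n ^ 2 * a / D -
      (128 * n + 1) * (4 * (48 * n * H + 1) * (δ * Δ)) -
        2 * (128 * n + 1) * (96 * n * Δ / (H * g)) := by
    rw [hp]
    push_cast
    field_simp
    ring
  have t1 : 2 / (H : ℝ) * (192 * n) ≤ 1 := by
    rw [div_mul_eq_mul_div, div_le_one hHR]
    linarith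
  have t1' : 0 ≤ 2 / (H : ℝ) * (192 * n) := by positivity
  have t0 : 24576 * (n : ℝ) ^ 2 * a / D ≤ 1 := by
    rw [div_le_one hDpos]
    exact haD
  have t0' : 0 ≤ 24576 * (n : ℝ) ^ 2 * a / D := by positivity
  have t2 : (128 * (n : ℝ) + 1) * (4 * (48 * n * H + 1) * (δ * Δ)) ≤ 1 := by
    have h1 : δ * Δ ≤ 1 / Δ := by
      calc δ * Δ ≤ 1 / (Δ : ℝ) ^ 2 * Δ := mul_le_mul_of_nonneg_right hδ1 hΔR.le
        _ = 1 / Δ := by field_simp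
    have h2 : 4 * (128 * (n : ℝ) + 1) * (48 * n * H + 1) ≤ Δ := by linarith
    calc (128 * (n : ℝ) + 1) * (4 * (48 * n * H + 1) * (δ * Δ))
        = 4 * (128 * (n : ℝ) + 1) * (48 * n * H + 1) * (δ * Δ) := by ring
      _ ≤ 4 * (128 * (n : ℝ) + 1) * (48 * n * H + 1) * (1 / Δ) :=
          mul_le_mul_of_nonneg_left h1 hq2
      _ ≤ Δ * (1 / Δ) := mul_le_mul_of_nonneg_right h2 (by positivity)
      _ = 1 := by field_simp
  have t2' : 0 ≤ (128 * (n : ℝ) + 1) * (4 * (48 * n * H + 1) * (δ * Δ)) := by positivity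
  have t3 : 2 * (128 * (n : ℝ) + 1) * (96 * n * Δ / (H * g)) ≤ 1 := by
    have h1 : ε' * Δ / (32 * n) ≤ (g : ℝ) :=
      (div_le_div_of_nonneg_right hD1 (by positivity)).trans hg1
    have h2 : 258 * 96 * 32 * (n : ℝ) ^ 3 ≤ H * ε' := by
      rwa [div_le_iff₀ hε'] at hHR1
    have h3 : 258 * 96 * (n : ℝ) ^ 2 * Δ ≤ H * g := by
      have h4 : 258 * 96 * (n : ℝ) ^ 2 * Δ ≤ H * (ε' * Δ / (32 * n)) := by
        rw [mul_div_assoc', le_div_iff₀ (by positivity)]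
        have h5 := mul_le_mul_of_nonneg_right h2 hΔR.le
        calc 258 * 96 * (n : ℝ) ^ 2 * Δ * (32 * n) = 258 * 96 * 32 * (n : ℝ) ^ 3 * Δ := by ring
          _ ≤ H * ε' * Δ := h5
          _ = _ := by ring
      exact h4.trans (mul_le_mul_of_nonneg_left h1 hHR.le)
    rw [mul_div_assoc', div_le_one (by positivity)]
    have h6 : 2 * (128 * (n : ℝ) + 1) ≤ 258 * n := by linarith
    calc 2 * (128 * (n : ℝ) + 1) * (96 * n * Δ) ≤ (258 * n) * (96 * n * Δ) :=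
          mul_le_mul_of_nonneg_right h6 (by positivity)
      _ = 258 * 96 * (n : ℝ) ^ 2 * Δ := by ring
      _ ≤ _ := h3
  have t3' : 0 ≤ 2 * (128 * (n : ℝ) + 1) * (96 * n * Δ / (H * g)) := by positivity
  have hlow : 192 * (n : ℝ) - 4 ≤ p * Δ := by
    rw [hpΔ]
    linarith
  have hup : p * Δ ≤ 192 * n := by
    rw [hpΔ]
    linarith
  refine ⟨g, p, hg0, hp, ?_, ?_, ?_, ?_⟩
  · by_contra hcon
    push Not at hcon
    have := mul_nonpos_of_nonpos_of_nonneg hcon hΔR.le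
    linarith
  · push_cast
    have : 0 ≤ 589824 * (n : ℝ) ^ 3 := by positivity
    linarith
  · push_cast
    have h1 : 4 * (48 * (n : ℝ) * H / (H * Δ)) ^ 2 * (64 * n) / D * ((Δ : ℝ) ^ 2 * D) =
        589824 * (n : ℝ) ^ 3 := by
      field_simp
      ring
    rw [h1]
    linarith
  · exact SNumAux.final ε' hε' n hn0 hn D a (g : ℝ) Δ p hDpos ha0 haD hD65 hgR.le hg2 hlow

end Pool.Agent.SG4
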